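import Mathlib

/-!
A discrete Brunn-Minkowski inequality for the sum of a finite subset of the integer lattice and
a box, and the growth argument built on it.
-/

open Finset

namespace Pool.Agent.Lib.MP_16f06b_pr

/-- superadditivity of the geometric mean, in the form used in the induction -/
lemma holder_step (d : ℕ) (x y m t : ℝ) (hx : 0 < x) (hy : 0 < y) (hm : 0 ≤ m) (ht : 0 ≤ t)
    (h : t ^ (d + 1) ≤ x * y ^ d) : (t + m) ^ (d + 1) ≤ (x + m) * (y + m) ^ d := by
  have hxm : 0 < x + m := by linarith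
  have hym : 0 < y + m := by linarith
  have hD : (0 : ℝ) < (d + 1 : ℝ) := by positivity
  set w1 : ℝ := 1 / (d + 1 : ℝ) with hw1
  set w2 : ℝ := d / (d + 1 : ℝ) with hw2
  have hw : w1 + w2 = 1 := by rw [hw1, hw2]; field_simp; ring
  have w1p : 0 ≤ w1 := by positivity
  have w2p : 0 ≤ w2 := by positivity
  have root : ∀ a b : ℝ, 0 ≤ a → 0 ≤ b → (a ^ w1 * b ^ w2) ^ (d + 1) = a * b ^ d := by
    intro a b ha hb
    rw [mul_pow, ← Real.rpow_natCast, ← Real.rpow_natCast, ← Real.rpow_mul ha,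
      ← Real.rpow_mul hb]
    have e1 : w1 * ((d + 1 : ℕ) : ℝ) = 1 := by rw [hw1]; push_cast; field_simp
    have e2 : w2 * ((d + 1 : ℕ) : ℝ) = (d : ℝ) := by rw [hw2]; push_cast; field_simp
    rw [e1, e2, Real.rpow_one, Real.rpow_natCast]
  set G : ℝ := (x + m) ^ w1 * (y + m) ^ w2 with hG
  have Gp : 0 < G := by positivity
  have a1 := Real.geom_mean_le_arith_mean2_weighted w1p w2p
    (p₁ := x / (x + m)) (p₂ := y / (y + m)) (by positivity) (by positivity) hw
  have a2 := Real.geom_mean_le_arith_mean2_weighted w1p w2p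
    (p₁ := m / (x + m)) (p₂ := m / (y + m)) (by positivity) (by positivity) hw
  rw [Real.div_rpow hx.le hxm.le, Real.div_rpow hy.le hym.le, div_mul_div_comm, ← hG] at a1
  rw [Real.div_rpow hm hxm.le, Real.div_rpow hm hym.le, div_mul_div_comm, ← hG] at a2
  have hmm : m ^ w1 * m ^ w2 = m := by
    rw [← Real.rpow_add' hm (by rw [hw]; norm_num), hw, Real.rpow_one]
  rw [hmm] at a2
  have hsum : w1 * (x / (x + m)) + w2 * (y / (y + m)) + (w1 * (m / (x + m)) + w2 * (m / (y + m)))
      = 1 := by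
    have : w1 * (x / (x + m)) + w2 * (y / (y + m)) + (w1 * (m / (x + m)) + w2 * (m / (y + m)))
        = w1 * ((x + m) / (x + m)) + w2 * ((y + m) / (y + m)) := by ring
    rw [this, div_self hxm.ne', div_self hym.ne', mul_one, mul_one, hw]
  have htle : t ≤ x ^ w1 * y ^ w2 := by
    rw [← root x y hx.le hy.le] at h
    exact le_of_pow_le_pow_left₀ (Nat.succ_ne_zero d) (by positivity) h
  have key : t + m ≤ G := by
    have : (x ^ w1 * y ^ w2 + m) / G ≤ 1 := by rw [add_div]; linarith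
    rw [div_le_one Gp] at this
    linarith
  rw [← root (x + m) (y + m) hxm.le hym.le]
  exact pow_le_pow_left₀ (by linarith) key _

/-- one-dimensional dilation -/
lemma dilate_one (U V : Finset ℤ) (φ ψ : ℤ → ℝ) (l : ℤ) (m : ℕ) (u₀ : ℤ) (hu₀ : u₀ ∈ U)
    (hψ : ∀ v, 0 ≤ ψ v)
    (hV : ∀ u ∈ U, ∀ v, u + l ≤ v → v ≤ u + l + m → v ∈ V ∧ φ u ≤ ψ v) :
    ∑ u ∈ U, φ u + m * φ u₀ ≤ ∑ v ∈ V, ψ v := by
  classical
  set U1 := U.filter (fun u => u ≤ u₀) with hU1
  set U2 := U.filter (fun u => ¬ u ≤ u₀) with hU2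
  set V1 := U1.image (fun u => u + l) with hV1
  set V2 := U2.image (fun u => u + l + m) with hV2
  set V3 := Finset.Ioc (u₀ + l) (u₀ + l + m) with hV3
  have d12 : Disjoint V1 V2 := by
    rw [Finset.disjoint_left]
    intro v h1 h2
    simp only [hV1, hV2, hU1, hU2, mem_image, mem_filter] at h1 h2
    obtain ⟨a, ⟨_, ha⟩, rfl⟩ := h1
    obtain ⟨b, ⟨_, hb⟩, hb2⟩ := h2
    omega
  have d3 : Disjoint (V1 ∪ V2) V3 := by
    rw [Finset.disjoint_left]
    intro v h1 h2
    simp only [hV1, hV2, hV3, hU1, hU2, mem_union, mem_image, mem_filter, mem_Ioc] at h1 h2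
    rcases h1 with ⟨a, ⟨_, ha⟩, rfl⟩ | ⟨b, ⟨_, hb⟩, rfl⟩ <;> omega
  have hsub : V1 ∪ V2 ∪ V3 ⊆ V := by
    intro v hv
    simp only [hV1, hV2, hV3, hU1, hU2, mem_union, mem_image, mem_filter, mem_Ioc] at hv
    rcases hv with (⟨a, ⟨ha, _⟩, rfl⟩ | ⟨b, ⟨hb, _⟩, rfl⟩) | h
    · exact (hV a ha _ le_rfl (by omega)).1
    · exact (hV b hb _ (by omega) le_rfl).1
    · exact (hV u₀ hu₀ v (by omega) h.2).1
  have s1 : ∑ u ∈ U1, φ u ≤ ∑ v ∈ V1, ψ v := by
    rw [hV1, sum_image (by intro a _ b _ h; simpa using h)]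
    apply sum_le_sum
    intro u hu
    exact (hV u (mem_filter.mp hu).1 _ le_rfl (by omega)).2
  have s2 : ∑ u ∈ U2, φ u ≤ ∑ v ∈ V2, ψ v := by
    rw [hV2, sum_image (by intro a _ b _ h; simpa using h)]
    apply sum_le_sum
    intro u hu
    exact (hV u (mem_filter.mp hu).1 _ (by omega) le_rfl).2
  have s3 : (m : ℝ) * φ u₀ ≤ ∑ v ∈ V3, ψ v := by
    have hc : V3.card = m := by simp [hV3]
    have := Finset.card_nsmul_le_sum V3 ψ (φ u₀) (by
      intro v hv
      rw [hV3, mem_Ioc] at hv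
      exact (hV u₀ hu₀ v (by omega) hv.2).2)
    rwa [hc, nsmul_eq_mul] at this
  have s0 : ∑ u ∈ U, φ u = ∑ u ∈ U1, φ u + ∑ u ∈ U2, φ u :=
    (sum_filter_add_sum_filter_not U _ φ).symm
  calc ∑ u ∈ U, φ u + m * φ u₀ ≤ ∑ v ∈ V1, ψ v + ∑ v ∈ V2, ψ v + ∑ v ∈ V3, ψ v := by linarith
    _ = ∑ v ∈ V1 ∪ V2 ∪ V3, ψ v := by rw [sum_union d3, sum_union d12]
    _ ≤ ∑ v ∈ V, ψ v := sum_le_sum_of_subset_of_nonneg hsub (fun v _ _ => hψ v)

/-- the slice of a finite set of lattice points at a given first coordinate -/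
def slice {d : ℕ} (A : Finset (Fin (d + 1) → ℤ)) (u : ℤ) : Finset (Fin d → ℤ) :=
  (A.filter (fun a => a 0 = u)).image Fin.tail

lemma card_slice {d : ℕ} (A : Finset (Fin (d + 1) → ℤ)) (u : ℤ) :
    (slice A u).card = (A.filter (fun a => a 0 = u)).card := by
  unfold slice
  apply card_image_of_injOn
  intro a ha b hb hab
  have ha' := (mem_filter.mp ha).2
  have hb' := (mem_filter.mp hb).2
  rw [← Fin.cons_self_tail a, ← Fin.cons_self_tail b, hab, ha', hb']

lemma mem_slice {d : ℕ} (A : Finset (Fin (d + 1) → ℤ)) (u : ℤ) (x : Fin d → ℤ) :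
    x ∈ slice A u ↔ (Fin.cons u x : Fin (d + 1) → ℤ) ∈ A := by
  unfold slice
  simp only [mem_image, mem_filter]
  constructor
  · rintro ⟨a, ⟨ha, rfl⟩, rfl⟩
    rwa [Fin.cons_self_tail]
  · intro h
    exact ⟨_, ⟨h, by simp⟩, by simp⟩

lemma card_eq_sum_slice {d : ℕ} (A : Finset (Fin (d + 1) → ℤ)) :
    (A.card : ℝ) = ∑ u ∈ A.image (fun a => a 0), ((slice A u).card : ℝ) := by
  rw [card_eq_sum_card_image (fun a => a 0) A]
  push_cast
  simp only [card_slice]

/-- discrete Brunn-Minkowski inequality for a box summand -/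
theorem discrete_bm (m : ℕ) : ∀ (d : ℕ) (l : Fin d → ℤ) (A C : Finset (Fin d → ℤ)),
    A.Nonempty →
    (∀ a ∈ A, ∀ b : Fin d → ℤ, (∀ i, a i + l i ≤ b i ∧ b i ≤ a i + l i + m) → b ∈ C) →
    ∀ t : ℝ, 0 ≤ t → t ^ d ≤ A.card → (t + m) ^ d ≤ C.card := by
  intro d
  induction d with
  | zero =>
    intro l A C hA hC t _ _
    obtain ⟨a, ha⟩ := hA
    have : a ∈ C := hC a ha a (fun i => i.elim0)
    have h1 : 1 ≤ C.card := card_pos.mpr ⟨a, this⟩
    simpa using (Nat.one_le_cast (α := ℝ)).mpr h1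
  | succ d ih =>
    intro l A C hA hC t ht htA
    classical
    set U := A.image (fun a => a 0) with hU
    set V := C.image (fun a => a 0) with hV
    have hUne : U.Nonempty := hA.image _
    obtain ⟨u₀, hu₀, hmax⟩ := exists_max_image U (fun u => (slice A u).card) hUne
    have hslne : ∀ u ∈ U, (slice A u).Nonempty := by
      intro u hu
      obtain ⟨a, ha, rfl⟩ := mem_image.mp hu
      exact ⟨Fin.tail a, by rw [mem_slice, Fin.cons_self_tail]; exact ha⟩
    set a₀ : ℝ := ((slice A u₀).card : ℝ) with ha₀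
    have a₀p : 0 < a₀ := by
      rw [ha₀]; exact_mod_cast card_pos.mpr (hslne u₀ hu₀)
    have hroot : ∀ a : ℝ, 0 < a → (d = 0 → a = 1) → ∃ y : ℝ, 0 < y ∧ y ^ d = a := by
      intro a ha h0
      rcases Nat.eq_zero_or_pos d with hd | hd
      · exact ⟨1, one_pos, by rw [one_pow, h0 hd]⟩
      · exact ⟨a ^ ((d : ℝ)⁻¹), by positivity, Real.rpow_inv_natCast_pow ha.le hd.ne'⟩
    have hone : ∀ u ∈ U, d = 0 → ((slice A u).card : ℝ) = 1 := by
      intro u hu hd
      subst hd
      have h1 : (slice A u).card ≤ 1 := card_le_one_of_subsingleton _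
      have h2 := card_pos.mpr (hslne u hu)
      have : (slice A u).card = 1 := by omega
      exact_mod_cast this
    obtain ⟨y, hy, hyd⟩ := hroot a₀ a₀p (hone u₀ hu₀)
    set g : ℝ := (y + m) ^ d with hg
    have key := dilate_one U V (fun u => ((slice A u).card : ℝ) / a₀ * g)
      (fun v => ((slice C v).card : ℝ)) (l 0) m u₀ hu₀ (fun v => by positivity) (by
        intro u hu v hv1 hv2
        have hsl : ∀ a ∈ slice A u, ∀ b : Fin d → ℤ,
            (∀ i, a i + Fin.tail l i ≤ b i ∧ b i ≤ a i + Fin.tail l i + m) → b ∈ slice C v := by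
          intro a ha b hb
          rw [mem_slice] at ha ⊢
          apply hC _ ha
          intro i
          refine Fin.cases ?_ (fun i => ?_) i
          · simpa using ⟨hv1, hv2⟩
          · simpa [Fin.tail] using hb i
        have cp : (0 : ℝ) < (slice A u).card := by exact_mod_cast card_pos.mpr (hslne u hu)
        obtain ⟨z, hz, hzd⟩ := hroot _ cp (hone u hu)
        have h1 := ih (Fin.tail l) (slice A u) (slice C v) (hslne u hu) hsl z hz.le hzd.le
        constructor
        · obtain ⟨a, ha⟩ := hslne u hu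
          have := hsl a ha (fun i => a i + Fin.tail l i) (fun i => ⟨le_rfl, by omega⟩)
          rw [mem_slice] at this
          exact mem_image.mpr ⟨_, this, by simp⟩
        · refine le_trans ?_ h1
          have hle : ((slice A u).card : ℝ) ≤ a₀ := by
            rw [ha₀]; exact_mod_cast hmax u hu
          rw [← hzd, ← hyd, hg, ← div_pow, ← mul_pow]
          rcases Nat.eq_zero_or_pos d with hd | hd
          · subst hd; simp
          · have hzy : z ≤ y := by
              rw [← hzd, ← hyd] at hle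
              exact le_of_pow_le_pow_left₀ hd.ne' hy.le hle
            apply pow_le_pow_left₀ (by positivity)
            have h2 : z / y ≤ 1 := (div_le_one hy).mpr hzy
            have h3 : z / y * (y + m) = z + z / y * m := by field_simp
            have h4 : (0 : ℝ) ≤ m := by positivity
            nlinarith)
    rw [← card_eq_sum_slice C, ← sum_mul, ← sum_div, ← card_eq_sum_slice A] at key
    simp only [← ha₀, div_self a₀p.ne', one_mul] at key
    refine le_trans ?_ key
    rw [← add_mul, hg]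
    have Ap : (0 : ℝ) < A.card := by exact_mod_cast card_pos.mpr hA
    apply holder_step d _ y m t (by positivity) hy (by positivity) ht
    rw [hyd, div_mul_cancel₀ _ a₀p.ne']
    exact htA

end Pool.Agent.Lib.MP_16f06b_pr
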