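import Mathlib

/-!
Definitions for the k-nearest neighbour graph of a Poisson process in a cube.
-/

open MeasureTheory ProbabilityTheory

namespace Pool.Agent.Lib.MP_16f06b_pr

/-- The cube `S_n = [0, n^{1/d}]^d` of volume `n` in Euclidean space. -/
def cube (d : ℕ) (n : ℝ) : Set (EuclideanSpace ℝ (Fin d)) :=
  {x | ∀ i, 0 ≤ x i ∧ x i ≤ n ^ (1 / (d : ℝ))}

/-- The number of points of the finite set `X` that lie in `A`. -/
noncomputable def count {d : ℕ} (X : Finset (EuclideanSpace ℝ (Fin d)))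
    (A : Set (EuclideanSpace ℝ (Fin d))) : ℕ :=
  ((X : Set (EuclideanSpace ℝ (Fin d))) ∩ A).ncard

/-- `X` is a Poisson process of intensity one in `S`: a random finite subset of `S` whose number
of points in a Borel set `A ⊆ S` is a Poisson variable of mean the volume of `A`, these numbers
being independent for pairwise disjoint sets. -/
structure IsPoissonProcess {d : ℕ} {Ω : Type} [MeasurableSpace Ω] (P : Measure Ω)
    (S : Set (EuclideanSpace ℝ (Fin d))) (X : Ω → Finset (EuclideanSpace ℝ (Fin d))) : Prop where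
  subset : ∀ ω, (X ω : Set (EuclideanSpace ℝ (Fin d))) ⊆ S
  measurable : ∀ A : Set (EuclideanSpace ℝ (Fin d)), MeasurableSet A → A ⊆ S →
    Measurable (fun ω => count (X ω) A)
  law : ∀ A : Set (EuclideanSpace ℝ (Fin d)), MeasurableSet A → A ⊆ S →
    P.map (fun ω => count (X ω) A) = poissonMeasure (volume A).toNNReal
  indep : ∀ (m : ℕ) (A : Fin m → Set (EuclideanSpace ℝ (Fin d))),
    (∀ i, MeasurableSet (A i)) → (∀ i, A i ⊆ S) →
    Pairwise (fun i j => Disjoint (A i) (A j)) →
    iIndepFun (fun i ω => count (X ω) (A i)) P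

/-- `y` is one of the `k` points of `X \ {x}` nearest to `x`: fewer than `k` points of
`X \ {x}` are closer to `x` than `y` is. -/
def IsNear {d : ℕ} (X : Finset (EuclideanSpace ℝ (Fin d))) (k : ℕ)
    (x y : EuclideanSpace ℝ (Fin d)) : Prop :=
  count X {z | z ≠ x ∧ dist x z < dist x y} < k

/-- The `k`-nearest neighbour graph on the vertex set `X`: distinct `x`, `y` are adjacent if `y`
is one of the `k` nearest points to `x` or `x` is one of the `k` nearest points to `y`. -/
def knnGraph {d : ℕ} (X : Finset (EuclideanSpace ℝ (Fin d))) (k : ℕ) : SimpleGraph X :=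
  SimpleGraph.fromRel (fun x y : X => IsNear X k x y)

/-- `K(n, ⌊c log n⌋)` in dimension `d` is connected with high probability. -/
def ConnectedWhp (d : ℕ) (c : ℝ) : Prop :=
  ∀ ε : ℝ, 0 < ε → ∃ n₀ : ℝ, ∀ n : ℝ, n₀ ≤ n →
    ∀ (Ω : Type) [MeasurableSpace Ω] (P : Measure Ω) [IsProbabilityMeasure P]
      (X : Ω → Finset (EuclideanSpace ℝ (Fin d))), IsPoissonProcess P (cube d n) X →
      P {ω | ¬ (knnGraph (X ω) ⌊c * Real.log n⌋₊).Connected} ≤ ENNReal.ofReal ε

/-- `K(n, ⌊c log n⌋)` in dimension `d` is disconnected with high probability: the probability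
that any two vertices are joined by a path tends to zero. -/
def DisconnectedWhp (d : ℕ) (c : ℝ) : Prop :=
  ∀ ε : ℝ, 0 < ε → ∃ n₀ : ℝ, ∀ n : ℝ, n₀ ≤ n →
    ∀ (Ω : Type) [MeasurableSpace Ω] (P : Measure Ω) [IsProbabilityMeasure P]
      (X : Ω → Finset (EuclideanSpace ℝ (Fin d))), IsPoissonProcess P (cube d n) X →
      P {ω | (knnGraph (X ω) ⌊c * Real.log n⌋₊).Preconnected} ≤ ENNReal.ofReal ε

end Pool.Agent.Lib.MP_16f06b_pr
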