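import Pool.Agent.Lib.MP_16f06b_pr.BM

/-!
The growth argument: two separated colour classes of tiles cannot both fill most of a box.
-/

open Finset

namespace Pool.Agent.Lib.MP_16f06b_pr

/-- the box with corner `p` and side `s` -/
noncomputable def box {d : ℕ} (p : Fin d → ℤ) (s : ℕ) : Finset (Fin d → ℤ) :=
  Fintype.piFinset (fun i => Finset.Ico (p i) (p i + s))

lemma mem_box {d : ℕ} (p : Fin d → ℤ) (s : ℕ) (a : Fin d → ℤ) :
    a ∈ box p s ↔ ∀ i, p i ≤ a i ∧ a i < p i + s := by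
  simp [box]

lemma card_box {d : ℕ} (p : Fin d → ℤ) (s : ℕ) : (box p s).card = s ^ d := by
  simp [box]

lemma growth {d : ℕ} (m s₀ J : ℕ) (p l : Fin d → ℤ) (hl : ∀ i, l i = 0 ∨ l i = -m)
    (A B Emp : Finset (Fin d → ℤ))
    (hsep : ∀ a ∈ A, ∀ b ∈ B, ∃ i, (m : ℤ) < |a i - b i|)
    (hcover : ∀ b ∈ box (fun i => p i + J * l i) (s₀ + J * m), b ∈ A ∨ b ∈ B ∨ b ∈ Emp)
    (t₀ κ L : ℝ) (hL : (Emp.card : ℝ) ≤ L) (ht₀ : 0 < t₀) (hκ : 0 ≤ κ)
    (h0 : t₀ ^ d ≤ (A ∩ box p s₀).card)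
    (hgrow : ∀ t, t₀ ≤ t → (t + κ * m) ^ d + L ≤ (t + m) ^ d) :
    ∀ j ≤ J, (t₀ + j * (κ * m)) ^ d ≤ (A ∩ box (fun i => p i + j * l i) (s₀ + j * m)).card := by
  intro j
  induction j with
  | zero => intro _; simpa using h0
  | succ j ih =>
    intro hj
    have ih := ih (by omega)
    have hκm : 0 ≤ κ * m := by positivity
    set t := t₀ + j * (κ * m) with ht
    have htt : t₀ ≤ t := by
      have : 0 ≤ (j : ℝ) * (κ * m) := by positivity
      linarith
    have tp : 0 < t := lt_of_lt_of_le ht₀ htt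
    have hne : (A ∩ box (fun i => p i + j * l i) (s₀ + j * m)).Nonempty := by
      rw [← card_pos]
      have : (0 : ℝ) < (A ∩ box (fun i => p i + j * l i) (s₀ + j * m)).card :=
        lt_of_lt_of_le (pow_pos tp d) ih
      exact_mod_cast this
    have key := discrete_bm m d l _
      ((A ∩ box (fun i => p i + (j + 1 : ℕ) * l i) (s₀ + (j + 1) * m)) ∪ Emp) hne (by
        intro a ha b hb
        obtain ⟨haA, haQ⟩ := mem_inter.mp ha
        rw [mem_box] at haQ
        have hbQ : b ∈ box (fun i => p i + (j + 1 : ℕ) * l i) (s₀ + (j + 1) * m) := by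
          rw [mem_box]
          intro i
          have h1 := haQ i
          have h2 := hb i
          push_cast at h1 ⊢
          constructor <;> linarith [h1.1, h1.2, h2.1, h2.2]
        have hbJ : b ∈ box (fun i => p i + J * l i) (s₀ + J * m) := by
          rw [mem_box] at hbQ ⊢
          intro i
          have h1 := hbQ i
          have hj' : ((j + 1 : ℕ) : ℤ) ≤ J := by exact_mod_cast hj
          have hm : (0 : ℤ) ≤ m := by positivity
          push_cast at h1 hj' ⊢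
          rcases hl i with h | h
          · rw [h] at h1 ⊢
            constructor <;> nlinarith [h1.1, h1.2]
          · rw [h] at h1 ⊢
            constructor <;> nlinarith [h1.1, h1.2]
        rcases hcover b hbJ with h | h | h
        · exact mem_union_left _ (mem_inter.mpr ⟨h, hbQ⟩)
        · exfalso
          obtain ⟨i, hi⟩ := hsep a haA b h
          have h2 := hb i
          have : |a i - b i| ≤ m := by
            rw [abs_le]
            rcases hl i with h | h <;> rw [h] at h2 <;> constructor <;> linarith [h2.1, h2.2]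
          linarith
        · exact mem_union_right _ h) t tp.le ih
    have h1 := hgrow t htt
    have h2 : (((A ∩ box (fun i => p i + (j + 1 : ℕ) * l i) (s₀ + (j + 1) * m)) ∪ Emp).card : ℝ)
        ≤ (A ∩ box (fun i => p i + (j + 1 : ℕ) * l i) (s₀ + (j + 1) * m)).card + Emp.card := by
      exact_mod_cast card_union_le _ _
    have h3 : t₀ + ((j + 1 : ℕ) : ℝ) * (κ * m) = t + κ * m := by rw [ht]; push_cast; ring
    rw [h3]
    linarith

lemma no_split {d : ℕ} (m s₀ J : ℕ) (p l : Fin d → ℤ) (hl : ∀ i, l i = 0 ∨ l i = -m)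
    (A B Emp : Finset (Fin d → ℤ))
    (hsep : ∀ a ∈ A, ∀ b ∈ B, ∃ i, (m : ℤ) < |a i - b i|)
    (hcover : ∀ b ∈ box (fun i => p i + J * l i) (s₀ + J * m), b ∈ A ∨ b ∈ B ∨ b ∈ Emp)
    (t₀ κ L : ℝ) (hL : (Emp.card : ℝ) ≤ L) (ht₀ : 0 < t₀) (hκ : 0 ≤ κ)
    (hA : t₀ ^ d ≤ (A ∩ box p s₀).card) (hB : t₀ ^ d ≤ (B ∩ box p s₀).card)
    (hgrow : ∀ t, t₀ ≤ t → (t + κ * m) ^ d + L ≤ (t + m) ^ d)
    (hfin : ((s₀ + J * m : ℕ) : ℝ) ^ d < 2 * (J * (κ * m)) ^ d) : False := by
  have h1 := growth m s₀ J p l hl A B Emp hsep hcover t₀ κ L hL ht₀ hκ hA hgrow J le_rfl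
  have h2 := growth m s₀ J p l hl B A Emp (by
      intro b hb a ha
      obtain ⟨i, hi⟩ := hsep a ha b hb
      exact ⟨i, by rwa [abs_sub_comm]⟩)
    (by
      intro b hb
      rcases hcover b hb with h | h | h
      · exact Or.inr (Or.inl h)
      · exact Or.inl h
      · exact Or.inr (Or.inr h)) t₀ κ L hL ht₀ hκ hB hgrow J le_rfl
  set Q := box (fun i => p i + J * l i) (s₀ + J * m) with hQ
  have hdisj : Disjoint (A ∩ Q) (B ∩ Q) := by
    rw [Finset.disjoint_left]
    intro a ha hb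
    obtain ⟨i, hi⟩ := hsep a (mem_inter.mp ha).1 a (mem_inter.mp hb).1
    simp at hi
    omega
  have h3 : (A ∩ Q).card + (B ∩ Q).card ≤ (s₀ + J * m) ^ d := by
    rw [← card_union_of_disjoint hdisj, ← card_box (fun i => p i + J * l i)]
    apply card_le_card
    exact union_subset inter_subset_right inter_subset_right
  have h4 : ((A ∩ Q).card : ℝ) + (B ∩ Q).card ≤ ((s₀ + J * m : ℕ) : ℝ) ^ d := by
    exact_mod_cast h3
  have h5 : ((J : ℝ) * (κ * m)) ^ d ≤ (t₀ + J * (κ * m)) ^ d :=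
    pow_le_pow_left₀ (by positivity) (by linarith) d
  linarith

/-- the growth inequality for the chosen parameters -/
lemma grow_ineq (d : ℕ) (hd : 100 ≤ d) (q m t : ℝ) (hq : 0 < q) (hm : 0.19 * q ≤ m)
    (ht : 0.95 * q ≤ t) :
    (t + (1 - 1 / (4 * d)) * m) ^ d + 2 * q ^ d ≤ (t + m) ^ d := by
  obtain ⟨e, rfl⟩ : ∃ e, d = e + 1 := ⟨d - 1, by omega⟩
  have he : 99 ≤ e := by omega
  have hD : (100 : ℝ) ≤ ((e + 1 : ℕ) : ℝ) := by exact_mod_cast hd
  set D : ℝ := ((e + 1 : ℕ) : ℝ) with hDdef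
  have mp : 0 < m := by linarith
  set u := t + (1 - 1 / (4 * D)) * m with hu
  have hfrac : 1 / (4 * D) ≤ 1 / 4 := by
    apply one_div_le_one_div_of_le <;> linarith
  have hu1 : 1.09 * q ≤ u := by nlinarith
  have up : 0 < u := by linarith
  have h1 : t + m = u + m / (4 * D) := by rw [hu]; field_simp; ring
  have h2 : u ^ (e + 1) + D * u ^ e * (m / (4 * D)) ≤ (u + m / (4 * D)) ^ (e + 1) := by
    have hb := one_add_mul_le_pow (a := m / (4 * D) / u)
      (by have : 0 ≤ m / (4 * D) / u := by positivity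
          linarith) (e + 1)
    have e1 : u + m / (4 * D) = u * (1 + m / (4 * D) / u) := by field_simp
    rw [e1, mul_pow]
    have e2 : u ^ (e + 1) + D * u ^ e * (m / (4 * D))
        = u ^ (e + 1) * (1 + D * (m / (4 * D) / u)) := by field_simp; ring
    rw [e2]
    exact mul_le_mul_of_nonneg_left hb (by positivity)
  have h3 : D * u ^ e * (m / (4 * D)) = u ^ e * m / 4 := by field_simp
  have h4 : (1.09 * q) ^ e ≤ u ^ e := pow_le_pow_left₀ (by positivity) hu1 e
  have h5 : (50 : ℝ) ≤ 1.09 ^ e := by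
    calc (50 : ℝ) ≤ 1.09 ^ 99 := by norm_num
      _ ≤ 1.09 ^ e := pow_le_pow_right₀ (by norm_num) he
  rw [mul_pow] at h4
  have qe : 0 < q ^ e := by positivity
  have h6 : 50 * q ^ e ≤ u ^ e := by nlinarith
  have h7 : 2 * q ^ (e + 1) ≤ u ^ e * m / 4 := by
    rw [pow_succ]
    nlinarith [mul_le_mul h6 hm (by positivity) (by positivity)]
  rw [h1]
  linarith

/-- the final inequality for the chosen parameters -/
lemma final_ineq (d s₀ m : ℕ) (hd : 1 ≤ d) (hs : 1 ≤ s₀) (hm : 1 ≤ m) :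
    ((s₀ + (3 * d * s₀) * m : ℕ) : ℝ) ^ d
      < 2 * (((3 * d * s₀ : ℕ) : ℝ) * ((1 - 1 / (4 * d)) * m)) ^ d := by
  have hD : (1 : ℝ) ≤ d := by exact_mod_cast hd
  have hS : (1 : ℝ) ≤ s₀ := by exact_mod_cast hs
  have hM : (1 : ℝ) ≤ m := by exact_mod_cast hm
  set T : ℝ := 3 * d * s₀ * m with hT
  have Tp : 0 < T := by positivity
  have e1 : ((s₀ + (3 * d * s₀) * m : ℕ) : ℝ) ≤ T * (1 + 1 / (3 * d)) := by
    push_cast
    have : T * (1 + 1 / (3 * d)) = T + s₀ * m := by rw [hT]; field_simp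
    rw [this, hT]
    nlinarith
  have e2 : ((3 * d * s₀ : ℕ) : ℝ) * ((1 - 1 / (4 * d)) * m) = T * (1 - 1 / (4 * d)) := by
    push_cast; rw [hT]; ring
  have b1 : (1 + 1 / (3 * (d : ℝ))) ^ d ≤ Real.exp (1 / 3) := by
    calc (1 + 1 / (3 * (d : ℝ))) ^ d ≤ (Real.exp (1 / (3 * d))) ^ d := by
          apply pow_le_pow_left₀ (by positivity)
          linarith [Real.add_one_le_exp (1 / (3 * (d : ℝ)))]
      _ = Real.exp (1 / 3) := by
          rw [← Real.exp_nat_mul]; congr 1; field_simp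
  have b2 : Real.exp (1 / 3) < 3 / 2 := by
    have h := Real.exp_one_lt_d9
    have h3 : Real.exp (1 / 3) ^ 3 = Real.exp 1 := by
      rw [← Real.exp_nat_mul]; norm_num
    by_contra hc
    push Not at hc
    have := pow_le_pow_left₀ (by norm_num) hc 3
    rw [h3] at this
    norm_num at this h
    linarith
  have b3 : 3 / 4 ≤ (1 - 1 / (4 * (d : ℝ))) ^ d := by
    have hb := one_add_mul_le_pow (a := -(1 / (4 * (d : ℝ))))
      (by have : 1 / (4 * (d : ℝ)) ≤ 1 := by
            rw [div_le_one (by positivity)]; linarith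
          linarith) d
    have : (1 : ℝ) + d * -(1 / (4 * (d : ℝ))) = 3 / 4 := by field_simp; ring
    rw [this] at hb
    simpa [sub_eq_add_neg] using hb
  have Td : 0 < T ^ d := by positivity
  calc ((s₀ + (3 * d * s₀) * m : ℕ) : ℝ) ^ d ≤ (T * (1 + 1 / (3 * d))) ^ d :=
        pow_le_pow_left₀ (by positivity) e1 d
    _ = T ^ d * (1 + 1 / (3 * (d : ℝ))) ^ d := mul_pow _ _ _
    _ < T ^ d * (3 / 2) := mul_lt_mul_of_pos_left (lt_of_le_of_lt b1 b2) Td
    _ ≤ 2 * (T * (1 - 1 / (4 * d))) ^ d := by rw [mul_pow T]; nlinarith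
    _ = _ := by rw [e2]

end Pool.Agent.Lib.MP_16f06b_pr
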