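import Pool.Agent.Lib.MP_16f06b_pr.Tiles

/-!
Connectivity with high probability for `c > 120 / d`.
-/

open MeasureTheory Finset Filter
open scoped ENNReal

namespace Pool.Agent.Lib.MP_16f06b_pr

variable {d : ℕ}

lemma ctile_eq (h : ℝ) (a : Fin d → ℤ) : ctile h a =
    (WithLp.ofLp : EuclideanSpace ℝ (Fin d) → (Fin d → ℝ)) ⁻¹'
      (Set.Icc (fun i => a i * h) (fun i => (a i + 1) * h)) := by
  ext x
  simp only [ctile, Set.mem_ofPred_eq, Set.mem_preimage, Set.mem_Icc, Pi.le_def]
  exact ⟨fun H => ⟨fun i => (H i).1, fun i => (H i).2⟩, fun H i => ⟨H.1 i, H.2 i⟩⟩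

lemma otile_eq (h : ℝ) (a : Fin d → ℤ) : otile h a =
    (WithLp.ofLp : EuclideanSpace ℝ (Fin d) → (Fin d → ℝ)) ⁻¹'
      (Set.pi Set.univ (fun i => Set.Ioo (a i * h) ((a i + 1) * h))) := by
  ext x
  simp [otile]

lemma sq_eq (s : ℝ) : sq d s =
    (WithLp.ofLp : EuclideanSpace ℝ (Fin d) → (Fin d → ℝ)) ⁻¹'
      (Set.Icc (fun _ => 0) (fun _ => s)) := by
  ext x
  simp only [sq, Set.mem_ofPred_eq, Set.mem_preimage, Set.mem_Icc, Pi.le_def]
  exact ⟨fun H => ⟨fun i => (H i).1, fun i => (H i).2⟩, fun H i => ⟨H.1 i, H.2 i⟩⟩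

lemma ctile_meas (h : ℝ) (a : Fin d → ℤ) : MeasurableSet (ctile h a) := by
  rw [ctile_eq]
  exact (PiLp.volume_preserving_ofLp (Fin d)).measurable measurableSet_Icc

lemma otile_meas (h : ℝ) (a : Fin d → ℤ) : MeasurableSet (otile h a) := by
  rw [otile_eq]
  exact (PiLp.volume_preserving_ofLp (Fin d)).measurable
    (MeasurableSet.univ_pi (fun _ => measurableSet_Ioo))

lemma sq_meas (s : ℝ) : MeasurableSet (sq d s) := by
  rw [sq_eq]
  exact (PiLp.volume_preserving_ofLp (Fin d)).measurable measurableSet_Icc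

lemma ctile_vol {h : ℝ} (hh : 0 < h) (a : Fin d → ℤ) :
    volume (ctile h a) = ENNReal.ofReal (h ^ d) := by
  rw [ctile_eq, (PiLp.volume_preserving_ofLp (Fin d)).measure_preimage
    measurableSet_Icc.nullMeasurableSet, Real.volume_Icc_pi]
  have : ∀ i, (a i + 1) * h - a i * h = h := fun i => by ring
  simp [this, ENNReal.ofReal_pow hh.le]

lemma otile_vol {h : ℝ} (hh : 0 < h) (a : Fin d → ℤ) :
    volume (otile h a) = ENNReal.ofReal (h ^ d) := by
  rw [otile_eq, (PiLp.volume_preserving_ofLp (Fin d)).measure_preimage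
    (MeasurableSet.univ_pi (fun _ => measurableSet_Ioo)).nullMeasurableSet, Real.volume_pi_Ioo]
  have : ∀ i, (a i + 1) * h - a i * h = h := fun i => by ring
  simp [this, ENNReal.ofReal_pow hh.le]

lemma otile_disjoint {h : ℝ} (hh : 0 < h) {a b : Fin d → ℤ} (hab : a ≠ b) :
    Disjoint (otile h a) (otile h b) := by
  rw [Set.disjoint_left]
  intro x ha hb
  apply hab
  funext i
  have h1 : ⌊x i / h⌋ = a i := by
    rw [Int.floor_eq_iff, le_div_iff₀ hh, div_lt_iff₀ hh]
    exact ⟨(ha i).1.le, (ha i).2⟩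
  have h2 : ⌊x i / h⌋ = b i := by
    rw [Int.floor_eq_iff, le_div_iff₀ hh, div_lt_iff₀ hh]
    exact ⟨(hb i).1.le, (hb i).2⟩
  rw [← h1, h2]

lemma otile_union_vol {h : ℝ} (hh : 0 < h) (U : Finset (Fin d → ℤ)) :
    volume (⋃ a ∈ U, otile h a) = ENNReal.ofReal (U.card * h ^ d) := by
  rw [measure_biUnion_finset (fun a _ b _ hab => otile_disjoint hh hab)
    (fun a _ => otile_meas h a)]
  simp [otile_vol hh, ENNReal.ofReal_mul]

lemma ctile_union_vol {h : ℝ} (hh : 0 < h) (U : Finset (Fin d → ℤ)) :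
    volume (⋃ a ∈ U, ctile h a) ≤ ENNReal.ofReal (U.card * h ^ d) := by
  refine (measure_biUnion_finset_le _ _).trans ?_
  simp [ctile_vol hh, ENNReal.ofReal_mul]

lemma ctile_subset {h : ℝ} (hh : 0 < h) {M : ℕ} {a : Fin d → ℤ} (ha : a ∈ box 0 M) :
    ctile h a ⊆ sq d (M * h) := by
  intro x hx i
  have h1 := (mem_box _ _ _).mp ha i
  simp only [Pi.zero_apply, zero_add] at h1
  have h2 : (0 : ℝ) ≤ a i := by exact_mod_cast h1.1
  have h3 : (a i : ℝ) + 1 ≤ M := by exact_mod_cast h1.2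
  have h4 := hx i
  constructor <;> nlinarith [h4.1, h4.2]

lemma otile_subset_ctile (h : ℝ) (a : Fin d → ℤ) : otile h a ⊆ ctile h a :=
  fun _ hx i => ⟨(hx i).1.le, (hx i).2.le⟩

lemma gamma_lower (s : ℝ) (hs : 0 < s) : s ^ s * Real.exp (-s) ≤ Real.Gamma (s + 1) := by
  rw [Real.Gamma_eq_integral (by linarith), add_sub_cancel_right]
  have hint : IntegrableOn (fun x : ℝ => Real.exp (-x) * x ^ s) (Set.Ioi 0) := by
    have := Real.GammaIntegral_convergent (s := s + 1) (by linarith)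
    rwa [add_sub_cancel_right] at this
  calc s ^ s * Real.exp (-s) = ∫ x in Set.Ioi s, s ^ s * Real.exp (-x) := by
        rw [integral_const_mul, integral_exp_neg_Ioi]
    _ ≤ ∫ x in Set.Ioi s, Real.exp (-x) * x ^ s := by
        apply setIntegral_mono_on ((integrableOn_exp_neg_Ioi s).const_mul _)
          (hint.mono_set (Set.Ioi_subset_Ioi hs.le)) measurableSet_Ioi
        intro x hx
        rw [mul_comm]
        exact mul_le_mul_of_nonneg_left (Real.rpow_le_rpow hs.le (le_of_lt hx) hs.le)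
          (Real.exp_pos _).le
    _ ≤ ∫ x in Set.Ioi 0, Real.exp (-x) * x ^ s := by
        apply setIntegral_mono_set hint _ (Set.Ioi_subset_Ioi hs.le).eventuallyLE
        filter_upwards [self_mem_ae_restrict measurableSet_Ioi] with x hx
        have : 0 < x := hx
        positivity

lemma ball_vol (hd : 1 ≤ d) (x : EuclideanSpace ℝ (Fin d)) (r : ℝ) (hr : 0 ≤ r) :
    volume (Metric.closedBall x (Real.sqrt d * r)) ≤ ENNReal.ofReal ((4.2 * r) ^ d) := by
  have : Nonempty (Fin d) := ⟨⟨0, hd⟩⟩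
  rw [EuclideanSpace.volume_closedBall, Fintype.card_fin, ← ENNReal.ofReal_pow (by positivity),
    ← ENNReal.ofReal_mul (by positivity)]
  apply ENNReal.ofReal_le_ofReal
  have hD : (0 : ℝ) < d := by exact_mod_cast hd
  have hg := gamma_lower (d / 2) (by positivity)
  have e1 : ((d : ℝ) / 2) ^ ((d : ℝ) / 2) * Real.exp (-(d / 2))
      = (Real.sqrt (d / 2 * Real.exp (-1))) ^ d := by
    rw [Real.sqrt_eq_rpow, ← Real.rpow_natCast, ← Real.rpow_mul (by positivity),
      Real.mul_rpow (by positivity) (by positivity), ← Real.exp_mul]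
    congr 2 <;> ring
  rw [e1] at hg
  have gp : 0 < (Real.sqrt (d / 2 * Real.exp (-1))) ^ d := by positivity
  have e2 : Real.sqrt d * Real.sqrt Real.pi ≤ 4.2 * Real.sqrt (d / 2 * Real.exp (-1)) := by
    rw [← Real.sqrt_mul hD.le, show (4.2 : ℝ) = Real.sqrt (4.2 ^ 2) by
      rw [Real.sqrt_sq (by norm_num)], ← Real.sqrt_mul (by positivity)]
    apply Real.sqrt_le_sqrt
    have h1 := Real.pi_lt_d2
    have h2 := Real.exp_neg_one_gt_d9
    nlinarith
  calc (Real.sqrt d * r) ^ d * (Real.sqrt Real.pi ^ d / Real.Gamma (d / 2 + 1))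
      ≤ (Real.sqrt d * r) ^ d *
        (Real.sqrt Real.pi ^ d / (Real.sqrt (d / 2 * Real.exp (-1))) ^ d) := by
        gcongr
    _ = (Real.sqrt d * Real.sqrt Real.pi / Real.sqrt (d / 2 * Real.exp (-1)) * r) ^ d := by
        rw [← div_pow, ← mul_pow]; congr 1; ring
    _ ≤ (4.2 * r) ^ d := by
        apply pow_le_pow_left₀ (by positivity)
        apply mul_le_mul_of_nonneg_right _ hr
        rw [div_le_iff₀ (by positivity)]
        exact e2

lemma upper_prob (hd : 100 ≤ d) (M : ℕ) (h q : ℝ) (hh : 0 < h) (hq1 : 100 ≤ q)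
    (hq2 : q ≤ 200) (hM : 2 * sideW d ≤ M) (k k' : ℕ) (hk : k ≤ k') (δ : ℝ) (_hδ : 0 ≤ δ)
    (h1 : Real.exp (-(2 * (q * h) ^ d)) ≤ δ) (h2 : ((0.95 * q * h) ^ d) ^ k / k.factorial ≤ δ)
    {Ω : Type} [MeasurableSpace Ω] (P : Measure Ω)
    (X : Ω → Finset (EuclideanSpace ℝ (Fin d))) (hX : IsPoissonProcess P (sq d (M * h)) X) :
    P {ω | ¬ (knnGraph (X ω) k').Connected}
      ≤ ENNReal.ofReal (M ^ d * (2 * 2 ^ (sideW d ^ d) + 1) * δ) := by
  classical
  set F1 : (Fin d → ℤ) → Finset (Finset (Fin d → ℤ)) := fun p =>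
    (box p (sideW d)).powerset.filter (fun U => U ⊆ box 0 M ∧ 2 * q ^ d ≤ U.card) with hF1
  set F2 : (Fin d → ℤ) → Finset (Finset (Fin d → ℤ)) := fun p =>
    (box p (sideW d)).powerset.filter (fun U => U ⊆ box 0 M ∧ (U.card : ℝ) ≤ (0.95 * q) ^ d)
    with hF2
  have hsub : {ω | ¬ (knnGraph (X ω) k').Connected} ⊆ ⋃ p ∈ box (0 : Fin d → ℤ) M,
      ((⋃ U ∈ F1 p, {ω | count (X ω) (⋃ a ∈ U, otile h a) = 0}) ∪
      (⋃ U ∈ F2 p, {ω | k ≤ count (X ω) (⋃ a ∈ U, ctile h a)}) ∪
      {ω | k ≤ count (X ω) (Metric.closedBall (corner h p) (Real.sqrt d * (0.22 * q * h))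
        ∩ sq d (M * h))}) := by
    intro ω hω
    by_contra hcon
    apply hω
    simp only [Set.mem_iUnion, Set.mem_union, Set.mem_ofPred_eq, not_exists, not_or] at hcon
    apply connected_of_good hd M h q hh hq1 hq2 hM (X ω) k k' hk (fun z hz => hX.subset ω hz)
    · intro p hp U hU1 hU2 hU3
      exact (hcon p hp).1.1 U (mem_filter.mpr ⟨mem_powerset.mpr hU1, hU2, hU3⟩)
    · intro p hp U hU1 hU2 hU3
      exact not_le.mp ((hcon p hp).1.2 U (mem_filter.mpr ⟨mem_powerset.mpr hU1, hU2, hU3⟩))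
    · intro p hp
      exact not_le.mp (hcon p hp).2
  refine (measure_mono hsub).trans ((measure_biUnion_finset_le _ _).trans ?_)
  have cardF : ∀ (p : Fin d → ℤ) (f : Finset (Fin d → ℤ) → Prop) [DecidablePred f],
      (((box p (sideW d)).powerset.filter f).card : ℝ≥0∞) ≤ 2 ^ (sideW d ^ d) := by
    intro p f _
    have : ((box p (sideW d)).powerset.filter f).card ≤ 2 ^ (sideW d ^ d) := by
      refine (card_filter_le _ _).trans ?_
      rw [card_powerset, card_box]
    exact_mod_cast this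
  have hterm : ∀ p ∈ box (0 : Fin d → ℤ) M,
      P ((⋃ U ∈ F1 p, {ω | count (X ω) (⋃ a ∈ U, otile h a) = 0}) ∪
      (⋃ U ∈ F2 p, {ω | k ≤ count (X ω) (⋃ a ∈ U, ctile h a)}) ∪
      {ω | k ≤ count (X ω) (Metric.closedBall (corner h p) (Real.sqrt d * (0.22 * q * h))
        ∩ sq d (M * h))}) ≤ (2 * 2 ^ (sideW d ^ d) + 1) * ENNReal.ofReal δ := by
    intro p _
    have b1 : P (⋃ U ∈ F1 p, {ω | count (X ω) (⋃ a ∈ U, otile h a) = 0})
        ≤ 2 ^ (sideW d ^ d) * ENNReal.ofReal δ := by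
      refine (measure_biUnion_finset_le _ _).trans ?_
      refine (Finset.sum_le_card_nsmul _ _ (ENNReal.ofReal δ) ?_).trans ?_
      · intro U hU
        obtain ⟨_, hU2, hU3⟩ := mem_filter.mp hU
        refine (hX.prob_zero (Finset.measurableSet_biUnion _ (fun a _ => otile_meas h a)) ?_
          (2 * (q * h) ^ d) ?_ ?_).trans (ENNReal.ofReal_le_ofReal h1)
        · exact Set.iUnion₂_subset fun a ha =>
            (otile_subset_ctile h a).trans (ctile_subset hh (hU2 ha))
        · rw [otile_union_vol hh]; exact ENNReal.ofReal_ne_top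
        · rw [otile_union_vol hh]
          apply ENNReal.ofReal_le_ofReal
          rw [mul_pow, ← mul_assoc]
          exact mul_le_mul_of_nonneg_right hU3 (by positivity)
      · rw [nsmul_eq_mul]
        gcongr
        exact cardF p _
    have b2 : P (⋃ U ∈ F2 p, {ω | k ≤ count (X ω) (⋃ a ∈ U, ctile h a)})
        ≤ 2 ^ (sideW d ^ d) * ENNReal.ofReal δ := by
      refine (measure_biUnion_finset_le _ _).trans ?_
      refine (Finset.sum_le_card_nsmul _ _ (ENNReal.ofReal δ) ?_).trans ?_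
      · intro U hU
        obtain ⟨_, hU2, hU3⟩ := mem_filter.mp hU
        refine (hX.prob_ge (Finset.measurableSet_biUnion _ (fun a _ => ctile_meas h a)) ?_
          ((0.95 * q * h) ^ d) (by positivity) ?_ k).trans (ENNReal.ofReal_le_ofReal h2)
        · exact Set.iUnion₂_subset fun a ha => ctile_subset hh (hU2 ha)
        · refine (ctile_union_vol hh U).trans (ENNReal.ofReal_le_ofReal ?_)
          rw [mul_pow _ h]
          exact mul_le_mul_of_nonneg_right hU3 (by positivity)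
      · rw [nsmul_eq_mul]
        gcongr
        exact cardF p _
    have b3 : P {ω | k ≤ count (X ω)
        (Metric.closedBall (corner h p) (Real.sqrt d * (0.22 * q * h)) ∩ sq d (M * h))}
        ≤ ENNReal.ofReal δ := by
      refine (hX.prob_ge (measurableSet_closedBall.inter (sq_meas _)) Set.inter_subset_right
        ((0.95 * q * h) ^ d) (by positivity) ?_ k).trans (ENNReal.ofReal_le_ofReal h2)
      refine (measure_mono Set.inter_subset_left).trans
        ((ball_vol (by omega) _ _ (by positivity)).trans (ENNReal.ofReal_le_ofReal ?_))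
      apply pow_le_pow_left₀ (by positivity)
      have : 0 < q * h := by positivity
      nlinarith
    refine (measure_union_le _ _).trans ((add_le_add ((measure_union_le _ _).trans
      (add_le_add b1 b2)) b3).trans (le_of_eq ?_))
    ring
  refine (Finset.sum_le_card_nsmul _ _ _ hterm).trans (le_of_eq ?_)
  rw [card_box, nsmul_eq_mul, mul_assoc, ENNReal.ofReal_mul (by positivity),
    ENNReal.ofReal_mul (by positivity), ENNReal.ofReal_add (by positivity) (by positivity),
    ENNReal.ofReal_mul (by positivity), ENNReal.ofReal_pow (by positivity),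
    ENNReal.ofReal_pow (by positivity)]
  simp

theorem connected_whp (hd : 100 ≤ d) (c : ℝ) (hc : 120 / d < c) : ConnectedWhp d c := by
  intro ε hε
  have hD : (100 : ℝ) ≤ d := by exact_mod_cast hd
  have hd0 : d ≠ 0 := by omega
  set K : ℝ := 200 ^ d * (2 * 2 ^ (sideW d ^ d) + 1) with hK
  have Kp : 0 < K := by positivity
  have ev1 : ∀ᶠ n : ℝ in atTop, (d : ℝ) ≤ Real.log n :=
    Real.tendsto_log_atTop.eventually_ge_atTop _
  have ev2 : ∀ᶠ n : ℝ in atTop, ‖Real.log n‖ ≤ (1 / ((2 * sideW d) ^ d + 1)) * ‖id n‖ :=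
    Real.isLittleO_log_id_atTop.bound (by positivity)
  have ev3 : ∀ᶠ n : ℝ in atTop, K / ε ≤ n := eventually_ge_atTop _
  have ev4 : ∀ᶠ n : ℝ in atTop, 1 ≤ n := eventually_ge_atTop _
  obtain ⟨n₀, hn₀⟩ := eventually_atTop.mp (ev1.and (ev2.and (ev3.and ev4)))
  refine ⟨n₀, fun n hn Ω _ P _ X hX => ?_⟩
  obtain ⟨g1, g2, g3, g4⟩ := hn₀ n hn
  have np : 0 < n := by linarith
  set y := Real.log n with hy
  have yp : 0 < y := by linarith
  rw [Real.norm_of_nonneg yp.le, id, Real.norm_of_nonneg np.le] at g2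
  set s := n ^ (1 / (d : ℝ)) with hs
  set l := y ^ (1 / (d : ℝ)) with hl
  have sp : 0 < s := by positivity
  have lp : 0 < l := by positivity
  have hsd : s ^ d = n := by
    rw [hs, one_div]; exact Real.rpow_inv_natCast_pow np.le hd0
  have hld : l ^ d = y := by
    rw [hl, one_div]; exact Real.rpow_inv_natCast_pow yp.le hd0
  have l1 : 1 ≤ l := Real.one_le_rpow (by linarith) (by positivity)
  have hW : (2 * sideW d) * l ≤ s ∧ l ≤ s := by
    have hA : (0 : ℝ) ≤ (2 * sideW d) ^ d := by positivity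
    have g2' : ((2 * sideW d) ^ d + 1) * y ≤ n := by
      rw [one_div, inv_mul_eq_div, le_div_iff₀ (by positivity)] at g2
      linarith
    constructor
    · apply le_of_pow_le_pow_left₀ hd0 sp.le
      rw [mul_pow, hld, hsd]
      nlinarith
    · apply le_of_pow_le_pow_left₀ hd0 sp.le
      rw [hld, hsd]
      nlinarith
  set M := ⌈100 * s / l⌉₊ with hM
  have hM1 : 100 * s / l ≤ M := Nat.le_ceil _
  have hM2 : (M : ℝ) < 100 * s / l + 1 := Nat.ceil_lt_add_one (by positivity)
  have hsl : 1 ≤ s / l := by rw [le_div_iff₀ lp]; linarith [hW.2]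
  have e100 : 100 * s / l = 100 * (s / l) := by ring
  have Mp : (0 : ℝ) < M := by linarith
  set h := s / M with hh
  have hp : 0 < h := by positivity
  have hMh : M * h = s := by rw [hh]; field_simp
  set q := l / h with hq
  have hqh : q * h = l := by rw [hq]; field_simp
  have hq' : q = M / (s / l) := by rw [hq, hh]; field_simp
  have hq1 : 100 ≤ q := by rw [hq', le_div_iff₀ (by positivity)]; linarith
  have hq2 : q ≤ 200 := by rw [hq', div_le_iff₀ (by positivity)]; linarith
  have hMW : 2 * sideW d ≤ M := by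
    have : (2 * sideW d : ℝ) ≤ s / l := by rw [le_div_iff₀ lp]; exact hW.1
    have : (2 * sideW d : ℝ) ≤ M := by linarith
    exact_mod_cast this
  set k := ⌊120 / d * y⌋₊ with hk
  have hkk : k ≤ ⌊c * y⌋₊ := Nat.floor_le_floor (mul_le_mul_of_nonneg_right hc.le yp.le)
  have hkd : 60 * y ≤ d * k := by
    have h1 : 120 / d * y < k + 1 := Nat.lt_floor_add_one _
    have h2 : (120 : ℝ) / d * y * d = 120 * y := by field_simp
    nlinarith
  have hcube : cube d n = sq d (M * h) := by rw [hMh]; rfl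
  rw [hcube] at hX
  refine (upper_prob hd M h q hp hq1 hq2 hMW k _ hkk (Real.exp (-(2 * y))) (by positivity)
    (by rw [hqh, hld]) ?_ P X hX).trans (ENNReal.ofReal_le_ofReal ?_)
  · rw [mul_assoc, hqh, mul_pow, hld, mul_pow, mul_div_assoc, ← pow_mul]
    have h1 : y ^ k / k.factorial ≤ Real.exp y := Real.pow_div_factorial_le_exp y yp.le k
    have h2 : (0.95 : ℝ) ^ (d * k) ≤ Real.exp (-(3 * y)) := by
      calc (0.95 : ℝ) ^ (d * k) ≤ (Real.exp (-0.05)) ^ (d * k) := by
            apply pow_le_pow_left₀ (by norm_num)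
            linarith [Real.add_one_le_exp (-0.05 : ℝ)]
        _ = Real.exp (-0.05 * (d * k)) := by
            rw [← Real.exp_nat_mul]; congr 1; push_cast; ring
        _ ≤ Real.exp (-(3 * y)) := Real.exp_le_exp.mpr (by linarith)
    calc (0.95 : ℝ) ^ (d * k) * (y ^ k / k.factorial) ≤ Real.exp (-(3 * y)) * Real.exp y := by
          gcongr
      _ = Real.exp (-(2 * y)) := by rw [← Real.exp_add]; congr 1; ring
  · have h1 : (M : ℝ) ≤ 200 * s := by
      have : s / l ≤ s := div_le_self sp.le l1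
      linarith
    have h2 : (M : ℝ) ^ d ≤ 200 ^ d * n := by
      rw [← hsd, ← mul_pow]; exact pow_le_pow_left₀ Mp.le h1 d
    have h3 : Real.exp (-(2 * y)) = 1 / (n * n) := by
      rw [Real.exp_neg, two_mul, Real.exp_add, hy, Real.exp_log np, one_div]
    rw [h3]
    calc (M : ℝ) ^ d * (2 * 2 ^ (sideW d ^ d) + 1) * (1 / (n * n))
        ≤ 200 ^ d * n * (2 * 2 ^ (sideW d ^ d) + 1) * (1 / (n * n)) := by gcongr
      _ = K / n := by rw [hK]; field_simp
      _ ≤ ε := by
        rw [div_le_iff₀ np]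
        rw [div_le_iff₀ hε] at g3
        linarith

end Pool.Agent.Lib.MP_16f06b_pr
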