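import Pool.Agent.Lib.MP_16f06b_pr.LowerGeom
import Pool.Agent.Lib.MP_16f06b_pr.Upper

/-!
Disconnectedness with high probability for small `c`.
-/

open MeasureTheory ProbabilityTheory Finset Metric Filter
open scoped ENNReal

namespace Pool.Agent.Lib.MP_16f06b_pr

variable {d : ℕ}

/-- normalising map -/
noncomputable def psi (x : EuclideanSpace ℝ (Fin d)) (r : ℝ) (y : EuclideanSpace ℝ (Fin d)) :
    EuclideanSpace ℝ (Fin d) := r⁻¹ • (y - x)

lemma psi_meas (x : EuclideanSpace ℝ (Fin d)) (r : ℝ) : Measurable (psi x r) := by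
  unfold psi; fun_prop

lemma psi_dist (x : EuclideanSpace ℝ (Fin d)) {r : ℝ} (hr : 0 < r)
    (y z : EuclideanSpace ℝ (Fin d)) : dist (psi x r y) (psi x r z) = r⁻¹ * dist y z := by
  unfold psi
  rw [dist_smul₀, dist_sub_right, Real.norm_of_nonneg (by positivity)]

lemma psi_vol (x : EuclideanSpace ℝ (Fin d)) {r : ℝ} (hr : 0 < r)
    (A : Set (EuclideanSpace ℝ (Fin d))) :
    volume (psi x r ⁻¹' A) = ENNReal.ofReal (r ^ d) * volume A := by
  have : psi x r ⁻¹' A = (fun y => y + -x) ⁻¹' ((r⁻¹ • ·) ⁻¹' A) := by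
    ext y; simp [psi, sub_eq_add_neg]
  rw [this, measure_preimage_add_right, Measure.addHaar_preimage_smul _ (by positivity),
    finrank_euclideanSpace, Fintype.card_fin, inv_pow, inv_inv, abs_of_pos (by positivity)]

lemma psi_volReal (x : EuclideanSpace ℝ (Fin d)) {r : ℝ} (hr : 0 < r)
    (A : Set (EuclideanSpace ℝ (Fin d))) :
    volume.real (psi x r ⁻¹' A) = r ^ d * volume.real A := by
  rw [measureReal_def, psi_vol x hr, ENNReal.toReal_mul, ENNReal.toReal_ofReal (by positivity),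
    measureReal_def]

lemma not_preconnected (I : Finset (Fin d)) (l : ℕ) (Z : Finset (EuclideanSpace ℝ (Fin d)))
    (hZ : Z.Nonempty)
    (hnet : ∀ y ∈ cone I, y ∉ hole I l →
      ∃ z ∈ Z, ∀ w ∈ supply I l z, dist y w < ‖y‖ - delt / 2)
    (x : EuclideanSpace ℝ (Fin d)) {r : ℝ} (hr : 0 < r)
    (Y : Finset (EuclideanSpace ℝ (Fin d))) (k : ℕ) (hY : ∀ y ∈ Y, psi x r y ∈ cone I)
    (h1 : count Y (psi x r ⁻¹' capB I (delt / 2)) = k + 1)
    (h2 : count Y (psi x r ⁻¹' (hole I l \ capB I (delt / 2))) = 0)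
    (h3 : ∀ z ∈ Z, k < count Y (psi x r ⁻¹' supply I l z)) :
    ¬ (knnGraph Y k).Preconnected := by
  have dp := delt_pos
  have dl := delt_le
  have rp : 0 < r⁻¹ := by positivity
  rw [count_eq_zero_iff] at h2
  have hCH : capB I (delt / 2) ⊆ hole I l :=
    (capB_mono I (by linarith)).trans Set.subset_union_left
  have key : ∀ u ∈ Y, ∀ v ∈ Y, psi x r u ∈ capB I (delt / 2) → psi x r v ∉ capB I (delt / 2) →
      ¬ IsNear Y k u v ∧ ¬ IsNear Y k v u := by
    intro u hu v hv hu2 hv2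
    have hv3 : psi x r v ∉ hole I l := fun h => h2 v hv ⟨h, hv2⟩
    have hun := mem_ball_zero_iff.mp hu2.1
    have hvn : 1 - delt ≤ ‖psi x r v‖ := by
      by_contra h
      exact hv3 (Or.inl ⟨mem_ball_zero_iff.mpr (not_le.mp h), hY v hv⟩)
    have huv : ‖psi x r v‖ - delt / 2 ≤ dist (psi x r v) (psi x r u) := by
      have := dist_triangle (psi x r v) (psi x r u) 0
      rw [dist_zero_right, dist_zero_right] at this
      linarith
    unfold IsNear
    constructor
    · have g1 := count_le_erase Y (psi x r ⁻¹' capB I (delt / 2)) u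
      have g2 : count Y {z | z ≠ u ∧ z ∈ psi x r ⁻¹' capB I (delt / 2)}
          ≤ count Y {z | z ≠ u ∧ dist u z < dist u v} := by
        apply count_mono
        rintro z _ ⟨hz1, hz2⟩
        refine ⟨hz1, ?_⟩
        have hzn := mem_ball_zero_iff.mp hz2.1
        have := dist_triangle (psi x r u) 0 (psi x r z)
        rw [dist_zero_right, dist_zero_left] at this
        apply lt_of_mul_lt_mul_left _ rp.le
        rw [← psi_dist x hr, ← psi_dist x hr, dist_comm (psi x r u) (psi x r v)]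
        linarith
      have g3 : k + 1 ≤ count Y {z | z ≠ u ∧ dist u z < dist u v} + 1 := by
        rw [← h1]; exact g1.trans (Nat.add_le_add_right g2 1)
      exact not_lt.mpr (Nat.le_of_add_le_add_right g3)
    · obtain ⟨z₀, hz₀, hz₀2⟩ := hnet _ (hY v hv) hv3
      have g0 := h3 z₀ hz₀
      have g1 := count_le_erase Y (psi x r ⁻¹' supply I l z₀) v
      have g2 : count Y {z | z ≠ v ∧ z ∈ psi x r ⁻¹' supply I l z₀}
          ≤ count Y {z | z ≠ v ∧ dist v z < dist v u} := by
        apply count_mono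
        rintro z _ ⟨hz1, hz2⟩
        refine ⟨hz1, ?_⟩
        have := hz₀2 _ hz2
        apply lt_of_mul_lt_mul_left _ rp.le
        rw [← psi_dist x hr, ← psi_dist x hr]
        linarith
      have g3 : k + 1 ≤ count Y {z | z ≠ v ∧ dist v z < dist v u} + 1 :=
        (Nat.succ_le_of_lt g0).trans (g1.trans (Nat.add_le_add_right g2 1))
      exact not_lt.mpr (Nat.le_of_add_le_add_right g3)
  have ex : ∀ A : Set (EuclideanSpace ℝ (Fin d)), count Y A ≠ 0 → ∃ u ∈ Y, u ∈ A := by
    intro A hA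
    by_contra hcon
    push Not at hcon
    exact hA ((count_eq_zero_iff Y A).mpr hcon)
  obtain ⟨u, hu, hu2⟩ := ex (psi x r ⁻¹' capB I (delt / 2))
    (by rw [h1]; exact Nat.succ_ne_zero k)
  obtain ⟨z₀, hz₀⟩ := hZ
  obtain ⟨v, hv, hv2⟩ := ex (psi x r ⁻¹' supply I l z₀) 
    (lt_of_le_of_lt (Nat.zero_le _) (h3 z₀ hz₀)).ne'
  intro hpre
  obtain ⟨w⟩ := hpre ⟨u, hu⟩ ⟨v, hv⟩
  have step : ∀ a c : Y, (knnGraph Y k).Adj a c →
      psi x r a.1 ∈ capB I (delt / 2) → psi x r c.1 ∈ capB I (delt / 2) := by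
    intro a c hadj ha
    by_contra hc
    obtain ⟨f1, f2⟩ := key a.1 a.2 c.1 c.2 ha hc
    have hadj2 : IsNear Y k a.1 c.1 ∨ IsNear Y k c.1 a.1 :=
      ((SimpleGraph.fromRel_adj _ a c).mp hadj).2
    exact hadj2.elim f1 f2
  have walk : ∀ (a b : Y) (_ : (knnGraph Y k).Walk a b),
      psi x r a.1 ∈ capB I (delt / 2) → psi x r b.1 ∈ capB I (delt / 2) := by
    intro a b w
    induction w with
    | nil => exact id
    | cons hadj _ ih => exact fun ha => ih (step _ _ hadj ha)
  have hv3 : psi x r v ∉ hole I l := hv2.2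
  exact hv3 (hCH (walk ⟨u, hu⟩ ⟨v, hv⟩ w hu2))

variable {Ω : Type} [MeasurableSpace Ω] {P : Measure Ω}
  {S : Set (EuclideanSpace ℝ (Fin d))} {X : Ω → Finset (EuclideanSpace ℝ (Fin d))}

lemma IsPoissonProcess.prob_triple (h : IsPoissonProcess P S X)
    {A B C : Set (EuclideanSpace ℝ (Fin d))} (hA : MeasurableSet A) (hB : MeasurableSet B)
    (hC : MeasurableSet C) (hAS : A ⊆ S) (hBS : B ⊆ S) (hCS : C ⊆ S) (hAB : Disjoint A B)
    (hAC : Disjoint A C) (hBC : Disjoint B C) (k : ℕ) :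
    P ({ω | count (X ω) A = k + 1} ∩ {ω | count (X ω) B = 0} ∩ {ω | count (X ω) C ≤ k})
      = P {ω | count (X ω) A = k + 1} * P {ω | count (X ω) B = 0}
        * P {ω | count (X ω) C ≤ k} := by
  have hi := h.indep 3 ![A, B, C] (by intro i; fin_cases i <;> simpa)
    (by intro i; fin_cases i <;> simpa) (by
      intro i j hij
      fin_cases i <;> fin_cases j <;> simp_all [disjoint_comm])
  have := hi.measure_inter_preimage_eq_mul univ (sets := ![{k + 1}, {0}, {j | j ≤ k}])
    (fun i _ => MeasurableSet.of_discrete)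
  rw [Fin.prod_univ_three] at this
  convert this using 2
  · ext ω
    simp [Fin.forall_fin_succ, and_assoc]
  all_goals rfl

lemma IsPoissonProcess.prob_none [IsProbabilityMeasure P] (h : IsPoissonProcess P S X)
    {T : Type} [Fintype T] (A B : T → Set (EuclideanSpace ℝ (Fin d)))
    (hA : ∀ t, MeasurableSet (A t)) (hB : ∀ t, MeasurableSet (B t))
    (hAS : ∀ t, A t ⊆ S) (hBS : ∀ t, B t ⊆ S) (hAB : ∀ t, Disjoint (A t) (B t))
    (hdisj : ∀ t t', t ≠ t' → Disjoint (A t ∪ B t) (A t' ∪ B t')) (k : ℕ) (p : ℝ≥0∞)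
    (hp : ∀ t, P {ω | count (X ω) (A t) = k + 1} * P {ω | count (X ω) (B t) = 0} = p)
    (T₀ : Finset T) :
    P (⋂ t ∈ T₀, ({ω | count (X ω) (A t) = k + 1} ∩ {ω | count (X ω) (B t) = 0})ᶜ)
      = (1 - p) ^ T₀.card := by
  classical
  set G : T × Bool → Set (EuclideanSpace ℝ (Fin d)) := fun i => if i.2 then A i.1 else B i.1
    with hG
  have hi := h.indep_fintype G
    (by rintro ⟨t, b⟩; cases b <;> simp [hG, hA, hB])
    (by rintro ⟨t, b⟩; cases b <;> simp [hG, hAS, hBS])
    (by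
      rintro ⟨t, b⟩ ⟨t', b'⟩ hne
      by_cases htt : t = t'
      · subst htt
        cases b <;> cases b' <;> simp_all [disjoint_comm]
      · have := hdisj t t' htt
        cases b <;> cases b' <;> simp_all)
  set Ev : T → Set Ω := fun t =>
    {ω | count (X ω) (A t) = k + 1} ∩ {ω | count (X ω) (B t) = 0} with hEv
  have hprod : ∀ s : Finset T, P (⋂ t ∈ s, Ev t) = p ^ s.card := by
    intro s
    have := hi.measure_inter_preimage_eq_mul (s ×ˢ (univ : Finset Bool))
      (sets := fun i => if i.2 then {k + 1} else {0}) (fun i _ => MeasurableSet.of_discrete)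
    rw [prod_product] at this
    have e1 : (⋂ t ∈ s, Ev t) = ⋂ i ∈ s ×ˢ (univ : Finset Bool),
        (fun ω => count (X ω) (G i)) ⁻¹' (if i.2 then {k + 1} else {0}) := by
      ext ω
      simp only [hEv, hG, Set.mem_iInter, Set.mem_inter_iff, Set.mem_ofPred_eq, mem_product,
        mem_univ, and_true, Set.mem_preimage, Prod.forall, Bool.forall_bool]
      simp only [Bool.false_eq_true, if_false, if_true, Set.mem_singleton_iff]
      exact ⟨fun H t => ⟨fun ht => (H t ht).2, fun ht => (H t ht).1⟩,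
        fun H t ht => ⟨(H t).2 ht, (H t).1 ht⟩⟩
    rw [e1, this, ← prod_const]
    apply prod_congr rfl
    intro t _
    rw [Fintype.prod_bool, ← hp t]
    rfl
  have hone : ∀ t, P (Ev t) = p := by
    intro t
    simpa using hprod {t}
  have hmeas : ∀ t, MeasurableSet (Ev t) := fun t =>
    ((h.measurable _ (hA t) (hAS t)) (measurableSet_singleton (k + 1))).inter
      ((h.measurable _ (hB t) (hBS t)) (measurableSet_singleton 0))
  have hind : iIndepSet Ev P := by
    rw [iIndepSet_iff_meas_biInter hmeas]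
    intro s
    rw [hprod s]
    simp [hone]
  rw [iIndepSet_iff_iIndep] at hind
  rw [hind.meas_biInter (S := T₀) (s := fun t => (Ev t)ᶜ) (fun t _ =>
    (MeasurableSpace.measurableSet_generateFrom (Set.mem_singleton _)).compl)]
  simp [prob_compl_eq_one_sub (hmeas _), hone]

lemma lower_prob [IsProbabilityMeasure P] (h : IsPoissonProcess P S X) (hd : 1 ≤ d)
    (I : Finset (Fin d)) (l : ℕ) (hI : I.card = 4 * l) (hl : 8 * l ≤ d) (hl2 : d ≤ 16 * l)
    (hbig : (1 - delt) ^ d + (1 / 2) ^ d ≤ 1 / 4)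
    (Z : Finset (EuclideanSpace ℝ (Fin d))) (hZ : Z.Nonempty)
    (hZ2 : ∀ z ∈ Z, z ∈ cone I ∧ z ∉ hole I l ∧ ‖z‖ ≤ 1 + delt)
    (hnet : ∀ y ∈ cone I, y ∉ hole I l →
      ∃ z ∈ Z, ∀ w ∈ supply I l z, dist y w < ‖y‖ - delt / 2)
    (k : ℕ) (hk : 1 ≤ k) {r : ℝ} (hr : 0 < r) (hrk : r ^ d * volume.real (capB I 1) = 16 * k)
    {T : Type} [Fintype T] (x : T → EuclideanSpace ℝ (Fin d))
    (hx1 : ∀ t, psi (x t) r ⁻¹' capB I 3 ⊆ S) (hx2 : ∀ t, ∀ y ∈ S, psi (x t) r y ∈ cone I)
    (hx3 : ∀ t t', t ≠ t' → Disjoint (psi (x t) r ⁻¹' capB I 3) (psi (x t') r ⁻¹' capB I 3))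
    (m : ℝ) (hm : 0 ≤ m)
    (hT : (m + 1) ≤ Real.exp (-(4 * k)) * ((delt / 2) ^ d) ^ (k + 1) * Fintype.card T) :
    P {ω | (knnGraph (X ω) k).Preconnected}
      ≤ ENNReal.ofReal (Real.exp (-m) + (m + 1) * Z.card * Real.exp (-k)) := by
  classical
  have dp := delt_pos
  have dl := delt_le
  have hK : (1 : ℝ) ≤ k := by exact_mod_cast hk
  set A : T → Set (EuclideanSpace ℝ (Fin d)) := fun t => psi (x t) r ⁻¹' capB I (delt / 2) with hA
  set B : T → Set (EuclideanSpace ℝ (Fin d)) :=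
    fun t => psi (x t) r ⁻¹' (hole I l \ capB I (delt / 2)) with hB
  set C : T → EuclideanSpace ℝ (Fin d) → Set (EuclideanSpace ℝ (Fin d)) :=
    fun t z => psi (x t) r ⁻¹' supply I l z with hC
  have hCH : capB I (delt / 2) ⊆ hole I l :=
    (capB_mono I (by linarith)).trans Set.subset_union_left
  have hH3 : hole I l ⊆ capB I 3 := (hole_subset I l).trans (capB_mono I (by linarith))
  have mA : ∀ t, MeasurableSet (A t) := fun t => psi_meas _ _ (capB_meas I _)
  have mB : ∀ t, MeasurableSet (B t) := fun t =>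
    psi_meas _ _ ((hole_meas I l).diff (capB_meas I _))
  have mC : ∀ t z, MeasurableSet (C t z) := fun t z => psi_meas _ _ (supply_meas I l z)
  have sA' : ∀ t, A t ⊆ psi (x t) r ⁻¹' capB I 3 := fun t => Set.preimage_mono (hCH.trans hH3)
  have sB' : ∀ t, B t ⊆ psi (x t) r ⁻¹' capB I 3 := fun t =>
    Set.preimage_mono (Set.sdiff_subset.trans hH3)
  have sA : ∀ t, A t ⊆ S := fun t => (sA' t).trans (hx1 t)
  have sB : ∀ t, B t ⊆ S := fun t => (sB' t).trans (hx1 t)
  have sC : ∀ t, ∀ z ∈ Z, C t z ⊆ S := fun t z hz =>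
    (Set.preimage_mono (supply_subset I l (hZ2 z hz).2.2)).trans (hx1 t)
  have dAB : ∀ t, Disjoint (A t) (B t) := fun t => Set.disjoint_sdiff_right.preimage _
  set vA := r ^ d * volume.real (capB I (delt / 2)) with hvA
  set vB := r ^ d * volume.real (hole I l \ capB I (delt / 2)) with hvB
  set p := Real.exp (-vA) * vA ^ (k + 1) / (k + 1).factorial * Real.exp (-vB) with hp
  have vAp : 0 ≤ vA := mul_nonneg (by positivity) measureReal_nonneg
  have hpP : ∀ t, P {ω | count (X ω) (A t) = k + 1} * P {ω | count (X ω) (B t) = 0}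
      = ENNReal.ofReal p := by
    intro t
    rw [h.prob_single (mA t) (sA t), h.prob_single (mB t) (sB t), psi_volReal _ hr,
      psi_volReal _ hr, ← hvA, ← hvB, ← ENNReal.ofReal_mul (by positivity)]
    simp [hp]
  have hplow : Real.exp (-(4 * k)) * ((delt / 2) ^ d) ^ (k + 1) ≤ p := by
    have e1 : vA + vB ≤ 4 * k := by
      have g1 : volume.real (capB I (delt / 2)) + volume.real (hole I l \ capB I (delt / 2))
          = volume.real (hole I l) := by
        rw [← measureReal_union Set.disjoint_sdiff_right ((hole_meas I l).diff (capB_meas I _))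
          (capB_fin I _) (((measure_mono (Set.sdiff_subset.trans hH3)).trans_lt
            (capB_fin I 3).lt_top).ne), Set.union_sdiff_cancel hCH]
      have g2 := hole_vol hd I l hl hl2 hbig
      have g3 : 0 < r ^ d := by positivity
      rw [hvA, hvB, ← mul_add, g1]
      nlinarith
    have e2 : ((k + 1 : ℕ) : ℝ) * (delt / 2) ^ d ≤ vA := by
      rw [hvA, capB_vol I (t := delt / 2) (by linarith), mul_left_comm, hrk, mul_comm]
      apply mul_le_mul_of_nonneg_left _ (by positivity)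
      push_cast
      linarith
    have e3 : (((k + 1).factorial : ℕ) : ℝ) ≤ ((k + 1 : ℕ) : ℝ) ^ (k + 1) := by
      exact_mod_cast Nat.factorial_le_pow (k + 1)
    have e4 : ((delt / 2) ^ d) ^ (k + 1) ≤ vA ^ (k + 1) / (k + 1).factorial := by
      rw [le_div_iff₀ (by positivity)]
      calc ((delt / 2) ^ d) ^ (k + 1) * (((k + 1).factorial : ℕ) : ℝ)
          ≤ ((delt / 2) ^ d) ^ (k + 1) * ((k + 1 : ℕ) : ℝ) ^ (k + 1) := by gcongr
        _ = (((k + 1 : ℕ) : ℝ) * (delt / 2) ^ d) ^ (k + 1) := by rw [← mul_pow, mul_comm]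
        _ ≤ vA ^ (k + 1) := pow_le_pow_left₀ (by positivity) e2 _
    have e5 : p = Real.exp (-(vA + vB)) * (vA ^ (k + 1) / (k + 1).factorial) := by
      rw [hp, neg_add, Real.exp_add]; ring
    rw [e5]
    gcongr
  have ppos : 0 < p := lt_of_lt_of_le (by positivity) hplow
  have hcard : m + 1 ≤ p * Fintype.card T :=
    hT.trans (mul_le_mul_of_nonneg_right hplow (by positivity))
  have hTne : Nonempty T := by
    rw [← Fintype.card_pos_iff]
    by_contra hc
    have : Fintype.card T = 0 := by omega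
    rw [this] at hcard
    simp at hcard
    linarith
  have ple : p ≤ 1 := by
    obtain ⟨t⟩ := hTne
    rw [← ENNReal.ofReal_le_one, ← hpP t]
    exact mul_le_one' prob_le_one prob_le_one
  set L := ⌈m / p⌉₊ with hL
  have hL1 : m ≤ p * L := by
    have := Nat.le_ceil (m / p)
    rw [div_le_iff₀ ppos] at this
    linarith
  have hL2 : p * L ≤ m + 1 := by
    have h1 : (L : ℝ) < m / p + 1 := Nat.ceil_lt_add_one (by positivity)
    have h2 : p * (m / p + 1) = m + p := by field_simp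
    nlinarith
  have hL3 : L ≤ (univ : Finset T).card := by
    rw [hL, Nat.ceil_le, div_le_iff₀ ppos, card_univ]
    linarith
  obtain ⟨T₀, _, hT₀⟩ := exists_subset_card_eq hL3
  have hsub : {ω | (knnGraph (X ω) k).Preconnected} ⊆
      (⋂ t ∈ T₀, ({ω | count (X ω) (A t) = k + 1} ∩ {ω | count (X ω) (B t) = 0})ᶜ) ∪
      ⋃ t ∈ T₀, ⋃ z ∈ Z, ({ω | count (X ω) (A t) = k + 1} ∩ {ω | count (X ω) (B t) = 0} ∩
        {ω | count (X ω) (C t z) ≤ k}) := by
    intro ω hω
    by_contra hcon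
    simp only [Set.mem_union, Set.mem_iInter, Set.mem_iUnion, Set.mem_compl_iff, not_or,
      not_forall, not_not, not_exists, Set.mem_inter_iff, Set.mem_ofPred_eq, not_and] at hcon
    obtain ⟨⟨t, ht, h1⟩, h2⟩ := hcon
    have h1' : count (X ω) (A t) = k + 1 ∧ count (X ω) (B t) = 0 := by tauto
    refine not_preconnected I l Z hZ hnet (x t) hr (X ω) k
      (fun y hy => hx2 t y (h.subset ω hy)) h1'.1 h1'.2 (fun z hz => ?_) hω
    exact not_le.mp (h2 t ht z hz h1')
  refine (measure_mono hsub).trans ((measure_union_le _ _).trans ?_)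
  rw [ENNReal.ofReal_add (by positivity) (by positivity)]
  apply add_le_add
  · rw [h.prob_none A B mA mB sA sB dAB (fun t t' htt => (hx3 t t' htt).mono
      (Set.union_subset (sA' t) (sB' t)) (Set.union_subset (sA' t') (sB' t'))) k _ hpP T₀, hT₀,
      ← ENNReal.ofReal_one, ← ENNReal.ofReal_sub _ ppos.le, ← ENNReal.ofReal_pow (by linarith)]
    apply ENNReal.ofReal_le_ofReal
    calc (1 - p) ^ L ≤ (Real.exp (-p)) ^ L :=
          pow_le_pow_left₀ (by linarith) (by linarith [Real.add_one_le_exp (-p)]) L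
      _ = Real.exp (-(p * L)) := by rw [← Real.exp_nat_mul]; congr 1; ring
      _ ≤ Real.exp (-m) := Real.exp_le_exp.mpr (by linarith)
  · have hterm : ∀ t ∈ T₀, ∀ z ∈ Z,
        P ({ω | count (X ω) (A t) = k + 1} ∩ {ω | count (X ω) (B t) = 0} ∩
          {ω | count (X ω) (C t z) ≤ k}) ≤ ENNReal.ofReal (p * Real.exp (-k)) := by
      intro t _ z hz
      rw [h.prob_triple (mA t) (mB t) (mC t z) (sA t) (sB t) (sC t z hz) (dAB t)
        ((Set.disjoint_sdiff_right.mono_left hCH).preimage _)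
        ((Set.disjoint_sdiff_right.mono_left Set.sdiff_subset).preimage _), hpP t,
        ENNReal.ofReal_mul ppos.le]
      gcongr
      have fin : volume (supply I l z) ≠ ⊤ :=
        ((measure_mono (supply_subset I l (hZ2 z hz).2.2)).trans_lt (capB_fin I 3).lt_top).ne
      have fin2 : volume (C t z) ≠ ⊤ := by
        rw [hC]
        simp only
        rw [psi_vol _ hr]
        exact ENNReal.mul_ne_top ENNReal.ofReal_ne_top fin
      refine (h.prob_le (mC t z) (sC t z hz) (4 * k) fin2 ?_ k).trans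
        (ENNReal.ofReal_le_ofReal ?_)
      · rw [ENNReal.ofReal_le_iff_le_toReal fin2, ← measureReal_def, psi_volReal _ hr]
        have g2 := supply_vol hd I l hI hl hl2 hbig (hZ2 z hz).1 (hZ2 z hz).2.1
        have g3 : 0 < r ^ d := by positivity
        nlinarith
      · have g1 : (2 : ℝ) ^ k ≤ Real.exp k := by
          calc (2 : ℝ) ^ k ≤ (Real.exp 1) ^ k :=
                pow_le_pow_left₀ (by norm_num) (by linarith [Real.add_one_le_exp 1]) k
            _ = Real.exp k := by rw [← Real.exp_nat_mul, mul_one]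
        calc (2 : ℝ) ^ k * Real.exp (-(4 * k / 2)) ≤ Real.exp k * Real.exp (-(4 * k / 2)) := by
              gcongr
          _ = Real.exp (-k) := by rw [← Real.exp_add]; congr 1; ring
    refine (measure_biUnion_finset_le _ _).trans ?_
    refine (Finset.sum_le_card_nsmul _ _ (Z.card • ENNReal.ofReal (p * Real.exp (-k))) ?_).trans ?_
    · intro t ht
      exact (measure_biUnion_finset_le _ _).trans (Finset.sum_le_card_nsmul _ _ _ (hterm t ht))
    · rw [hT₀, nsmul_eq_mul, nsmul_eq_mul, ← ENNReal.ofReal_natCast, ← ENNReal.ofReal_natCast,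
        ← ENNReal.ofReal_mul (by positivity), ← ENNReal.ofReal_mul (by positivity)]
      apply ENNReal.ofReal_le_ofReal
      calc (L : ℝ) * (Z.card * (p * Real.exp (-k))) = (p * L) * Z.card * Real.exp (-k) := by ring
        _ ≤ _ := by gcongr

/-- the locations of the candidate clusters -/
noncomputable def loc (I : Finset (Fin d)) (G : ℕ) (r : ℝ) (t : {i // i ∉ I} → Fin G) :
    EuclideanSpace ℝ (Fin d) :=
  WithLp.toLp 2 (fun i => if h : i ∈ I then 0 else 3 * r * (2 * (t ⟨i, h⟩ : ℕ) + 1))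

lemma psi_coord (x : EuclideanSpace ℝ (Fin d)) {r : ℝ} (hr : 0 < r)
    {y : EuclideanSpace ℝ (Fin d)} (hy : psi x r y ∈ ball (0 : EuclideanSpace ℝ (Fin d)) 3)
    (i : Fin d) : |y i - x i| < 3 * r := by
  have h1 := coord_le_dist y x i
  have h2 := psi_dist x hr y x
  have h3 : psi x r x = 0 := by simp [psi]
  rw [h3] at h2
  have h4 := mem_ball.mp hy
  rw [h2, inv_mul_lt_iff₀ hr] at h4
  linarith

lemma loc_subset (I : Finset (Fin d)) {G : ℕ} (hG : 1 ≤ G) {r s : ℝ} (hr : 0 < r)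
    (hs : 6 * r * G ≤ s) (t : {i // i ∉ I} → Fin G) :
    psi (loc I G r t) r ⁻¹' capB I 3 ⊆ sq d s := by
  intro y hy i
  have h1 := abs_lt.mp (psi_coord _ hr hy.1 i)
  have hG' : (1 : ℝ) ≤ G := by exact_mod_cast hG
  by_cases hi : i ∈ I
  · have h2 := hy.2 i hi
    simp only [psi, loc, hi, dif_pos, PiLp.smul_apply, PiLp.sub_apply, sub_zero,
      smul_eq_mul] at h1 h2
    rw [le_inv_mul_iff₀ hr, mul_zero] at h2
    exact ⟨h2, by nlinarith [h1.2]⟩
  · simp only [loc, hi, dif_neg, not_false_iff] at h1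
    have h2 : ((t ⟨i, hi⟩ : ℕ) : ℝ) + 1 ≤ G := by exact_mod_cast (t ⟨i, hi⟩).2
    have h3 : (0 : ℝ) ≤ (t ⟨i, hi⟩ : ℕ) := by positivity
    constructor <;> nlinarith [h1.1, h1.2]

lemma loc_cone (I : Finset (Fin d)) (G : ℕ) {r s : ℝ} (hr : 0 < r) (t : {i // i ∉ I} → Fin G)
    (y : EuclideanSpace ℝ (Fin d)) (hy : y ∈ sq d s) : psi (loc I G r t) r y ∈ cone I := by
  intro i hi
  have := (hy i).1
  simp only [psi, loc, hi, dif_pos, PiLp.smul_apply, PiLp.sub_apply, sub_zero, smul_eq_mul]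
  positivity

lemma loc_disjoint (I : Finset (Fin d)) (G : ℕ) {r : ℝ} (hr : 0 < r)
    (t t' : {i // i ∉ I} → Fin G) (htt : t ≠ t') :
    Disjoint (psi (loc I G r t) r ⁻¹' capB I 3) (psi (loc I G r t') r ⁻¹' capB I 3) := by
  rw [Set.disjoint_left]
  intro y h1 h2
  apply htt
  funext ⟨i, hi⟩
  have g1 := abs_lt.mp (psi_coord _ hr h1.1 i)
  have g2 := abs_lt.mp (psi_coord _ hr h2.1 i)
  simp only [loc, hi, dif_neg, not_false_iff] at g1 g2
  have g3 : ((t ⟨i, hi⟩ : ℕ) : ℝ) < (t' ⟨i, hi⟩ : ℕ) + 1 := by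
    by_contra hc
    push Not at hc
    nlinarith [g1.1, g2.2]
  have g4 : ((t' ⟨i, hi⟩ : ℕ) : ℝ) < (t ⟨i, hi⟩ : ℕ) + 1 := by
    by_contra hc
    push Not at hc
    nlinarith [g1.2, g2.1]
  have g5 : (t ⟨i, hi⟩ : ℕ) < (t' ⟨i, hi⟩ : ℕ) + 1 := by exact_mod_cast g3
  have g6 : (t' ⟨i, hi⟩ : ℕ) < (t ⟨i, hi⟩ : ℕ) + 1 := by exact_mod_cast g4
  exact Fin.ext (by omega)

/-- the constant of the lower bound -/
noncomputable def lowC : ℝ := 1 / (4 * (4 + 2 * Real.log (2 / delt)))

lemma log_delt_pos : 0 < Real.log (2 / delt) := by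
  apply Real.log_pos
  rw [lt_div_iff₀ delt_pos]
  linarith [delt_le]

lemma lowC_pos : 0 < lowC := by
  unfold lowC
  have := log_delt_pos
  positivity

lemma lowC_le : lowC ≤ 120 := by
  unfold lowC
  have := log_delt_pos
  rw [div_le_iff₀ (by positivity)]
  linarith

lemma exp_bound (c y k D : ℝ) (_hc0 : 0 < c) (hD : 1 ≤ D) (hc : c < lowC / D) (hy : 0 < y)
    (hk : 1 ≤ k) (hk1 : k ≤ c * y) :
    -(y / 4) ≤ -(4 * k) + (k + 1) * (D * -Real.log (2 / delt)) := by
  have f2 := log_delt_pos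
  rw [lt_div_iff₀ (by positivity), lowC, lt_div_iff₀ (by positivity)] at hc
  generalize Real.log (2 / delt) = K at *
  have f4 : k * D * (4 + 2 * K) ≤ y / 4 := by
    calc k * D * (4 + 2 * K) ≤ c * y * D * (4 + 2 * K) := by gcongr
      _ = y / 4 * (c * D * (4 * (4 + 2 * K))) := by ring
      _ ≤ y / 4 := by nlinarith
  nlinarith [mul_nonneg (mul_nonneg (show (0 : ℝ) ≤ k - 1 by linarith)
    (show (0 : ℝ) ≤ D by linarith)) f2.le,
    mul_nonneg (show (0 : ℝ) ≤ k by linarith) (show (0 : ℝ) ≤ D - 1 by linarith)]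

theorem disconnected_whp (hd : 16 ≤ d) (hbig : (1 - delt) ^ d + (1 / 2) ^ d ≤ 1 / 4)
    (c : ℝ) (hc0 : 0 < c) (hc : c < lowC / d) : DisconnectedWhp d c := by
  classical
  intro ε hε
  have dp := delt_pos
  have hD : (16 : ℝ) ≤ d := by exact_mod_cast hd
  have hd0 : d ≠ 0 := by omega
  set l := d / 8 with hl
  obtain ⟨I, _, hI⟩ := exists_subset_card_eq (s := (univ : Finset (Fin d))) (n := 4 * l)
    (by simp; omega)
  obtain ⟨Z, hZ, hZ2, hnet⟩ := exists_net (by omega) I l
  set v := volume.real (capB I 1) with hv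
  have vp : 0 < v := capB_pos (by omega) I
  set m := 2 / ε with hm
  have mp : 0 < m := by positivity
  set B := (m + 1) ^ 2 * 12 ^ d * (16 * c / v) with hB
  have Bp : 0 < B := by positivity
  have ev1 : ∀ᶠ n : ℝ in atTop, 8 * B ≤ Real.log n :=
    Real.tendsto_log_atTop.eventually_ge_atTop _
  have ev2 : ∀ᶠ n : ℝ in atTop, (2 + (m + 1) * Z.card * m) / c ≤ Real.log n :=
    Real.tendsto_log_atTop.eventually_ge_atTop _
  have ev4 : ∀ᶠ n : ℝ in atTop, 1 ≤ n := eventually_ge_atTop _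
  obtain ⟨n₀, hn₀⟩ := eventually_atTop.mp (ev1.and (ev2.and ev4))
  refine ⟨n₀, fun n hn Ω _ P _ X hX => ?_⟩
  obtain ⟨g1, g2, g4⟩ := hn₀ n hn
  have np : 0 < n := by linarith
  set y := Real.log n with hy
  have yp : 0 < y := by linarith
  set k := ⌊c * y⌋₊ with hk
  have hk1 : (k : ℝ) ≤ c * y := Nat.floor_le (by positivity)
  have hk2 : c * y < k + 1 := Nat.lt_floor_add_one _
  have hZm : 0 ≤ (m + 1) * Z.card * m := by positivity
  rw [div_le_iff₀ hc0] at g2
  have hk3 : 1 + (m + 1) * Z.card * m ≤ k := by linarith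
  have hK : (1 : ℝ) ≤ k := by linarith
  have hk4 : 1 ≤ k := by exact_mod_cast hK
  set s := n ^ (1 / (d : ℝ)) with hs
  have sp : 0 < s := by positivity
  have hsd : s ^ d = n := by
    rw [hs, one_div]; exact Real.rpow_inv_natCast_pow np.le hd0
  set r := (16 * k / v) ^ ((d : ℝ)⁻¹) with hr
  have rp : 0 < r := by positivity
  have hrd : r ^ d = 16 * k / v := Real.rpow_inv_natCast_pow (by positivity) hd0
  have hn2 : Real.exp (y / 2) * Real.exp (y / 2) = n := by
    rw [← Real.exp_add, add_halves, hy, Real.exp_log np]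
  have hBy : B * y ≤ Real.exp (y / 2) := by
    have := Real.quadratic_le_exp_of_nonneg (x := y / 2) (by positivity)
    nlinarith
  have hmain : (m + 1) ^ 2 * (12 * r) ^ d ≤ Real.exp (y / 2) := by
    refine le_trans ?_ hBy
    rw [mul_pow, hrd, hB]
    have : 16 * k / v ≤ 16 * c / v * y := by
      rw [div_mul_eq_mul_div]; exact div_le_div_of_nonneg_right (by linarith) vp.le
    calc (m + 1) ^ 2 * (12 ^ d * (16 * k / v)) ≤ (m + 1) ^ 2 * (12 ^ d * (16 * c / v * y)) := by
          gcongr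
      _ = _ := by ring
  have e1 : 1 ≤ Real.exp (y / 2) := Real.one_le_exp (by positivity)
  have h12 : 12 * r ≤ s := by
    apply le_of_pow_le_pow_left₀ hd0 sp.le
    rw [hsd]
    have f1 : 0 < (12 * r) ^ d := by positivity
    have f2 : (12 * r) ^ d ≤ (m + 1) ^ 2 * (12 * r) ^ d :=
      le_mul_of_one_le_left f1.le (by nlinarith)
    nlinarith
  set G := ⌊s / (6 * r)⌋₊ with hG
  have hG1 : (G : ℝ) ≤ s / (6 * r) := Nat.floor_le (by positivity)
  have hG2 : s / (6 * r) < G + 1 := Nat.lt_floor_add_one _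
  have hG3 : 2 ≤ s / (6 * r) := by rw [le_div_iff₀ (by positivity)]; linarith
  have hG4 : s / (12 * r) ≤ G := by
    have : s / (12 * r) = s / (6 * r) / 2 := by field_simp; ring
    linarith
  have hG5 : (1 : ℝ) ≤ G := by linarith
  have hcube : cube d n = sq d s := rfl
  rw [hcube] at hX
  refine (lower_prob hX (by omega) I l hI (by omega) (by omega) hbig Z hZ hZ2 hnet k hk4 rp
    (by rw [hrd, ← hv]; field_simp) (loc I G r)
    (loc_subset I (by exact_mod_cast hG5) rp (by rw [le_div_iff₀ (by positivity)] at hG1; linarith))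
    (loc_cone I G rp) (loc_disjoint I G rp) m mp.le ?_).trans (ENNReal.ofReal_le_ofReal ?_)
  · have c1 : (Fintype.card ({i // i ∉ I} → Fin G) : ℝ) = (G : ℝ) ^ (d - 4 * l) := by
      rw [Fintype.card_fun, Fintype.card_fin, Fintype.card_subtype_compl, Fintype.card_fin,
        Fintype.card_coe, hI]
      push_cast
      rfl
    have c2 : Real.exp (-(y / 4)) ≤ Real.exp (-(4 * k)) * ((delt / 2) ^ d) ^ (k + 1) := by
      have f1 : delt / 2 = Real.exp (-Real.log (2 / delt)) := by
        rw [Real.exp_neg, Real.exp_log (by positivity), inv_div]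
      rw [f1, ← Real.exp_nat_mul, ← Real.exp_nat_mul, ← Real.exp_add, Real.exp_le_exp]
      push_cast
      exact exp_bound c y k d hc0 (by linarith) hc yp hK hk1
    have c3 : (m + 1) * Real.exp (y / 4) ≤ (G : ℝ) ^ (d - 4 * l) := by
      apply le_of_pow_le_pow_left₀ two_ne_zero (by positivity)
      have f1 : (G : ℝ) ^ d ≤ ((G : ℝ) ^ (d - 4 * l)) ^ 2 := by
        rw [← pow_mul]
        exact pow_le_pow_right₀ hG5 (by omega)
      have f2 : (s / (12 * r)) ^ d ≤ (G : ℝ) ^ d := pow_le_pow_left₀ (by positivity) hG4 d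
      have f3 : Real.exp (y / 4) ^ 2 = Real.exp (y / 2) := by
        rw [← Real.exp_nat_mul]; congr 1; push_cast; ring
      refine le_trans ?_ (f2.trans f1)
      rw [div_pow, hsd, le_div_iff₀ (by positivity), mul_pow, f3, ← hn2, mul_right_comm]
      exact mul_le_mul_of_nonneg_right hmain (Real.exp_pos _).le
    rw [c1]
    calc m + 1 = Real.exp (-(y / 4)) * ((m + 1) * Real.exp (y / 4)) := by
          rw [Real.exp_neg]; field_simp
      _ ≤ _ := by gcongr
  · have f1 : Real.exp (-m) ≤ ε / 2 := by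
      rw [Real.exp_neg, inv_le_comm₀ (by positivity) (by positivity), inv_div, ← hm]
      linarith [Real.add_one_le_exp m]
    have f2 : (m + 1) * Z.card * Real.exp (-k) ≤ ε / 2 := by
      rw [Real.exp_neg, ← div_eq_mul_inv, div_le_iff₀ (by positivity)]
      have f3 : ε / 2 * m = 1 := by rw [hm]; field_simp
      have f4 : (m + 1) * Z.card * m ≤ Real.exp k := by linarith [Real.add_one_le_exp (k : ℝ)]
      calc (m + 1) * Z.card = ε / 2 * ((m + 1) * Z.card * m) := by
            rw [mul_comm _ m, ← mul_assoc, f3, one_mul]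
        _ ≤ ε / 2 * Real.exp k := by gcongr
    linarith

lemma exists_big : ∃ d₀ : ℕ, ∀ d, d₀ ≤ d → (1 - delt) ^ d + (1 / 2 : ℝ) ^ d ≤ 1 / 4 := by
  have dp := delt_pos
  have dl := delt_le
  have h1 := tendsto_pow_atTop_nhds_zero_of_lt_one (r := 1 - delt) (by linarith) (by linarith)
  have h2 := tendsto_pow_atTop_nhds_zero_of_lt_one (r := (1 / 2 : ℝ)) (by norm_num) (by norm_num)
  have h3 := (h1.add h2).eventually_le_const (show (0 : ℝ) + 0 < 1 / 4 by norm_num)
  exact eventually_atTop.mp h3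

end Pool.Agent.Lib.MP_16f06b_pr
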