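import Pool.Agent.Lib.MP_16f06b_pr.Tiles

/-!
Geometry of the empty region near a face of high codimension.
-/

open MeasureTheory Finset Metric
open scoped ENNReal Pointwise

namespace Pool.Agent.Lib.MP_16f06b_pr

variable {d : ℕ}

/-- the cone of vectors with nonnegative coordinates in `I` -/
def cone (I : Finset (Fin d)) : Set (EuclideanSpace ℝ (Fin d)) := {w | ∀ i ∈ I, 0 ≤ w i}

/-- the part of a ball in the cone -/
def capB (I : Finset (Fin d)) (t : ℝ) : Set (EuclideanSpace ℝ (Fin d)) := ball 0 t ∩ cone I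

/-- vectors with at least `l` small coordinates in `I` -/
def poor (I : Finset (Fin d)) (l : ℕ) (a : ℝ) : Set (EuclideanSpace ℝ (Fin d)) :=
  ⋃ N ∈ I.powersetCard l, {w | ∀ i ∈ N, w i < a}

/-- the small constant bounding the small coordinates -/
noncomputable def alph : ℝ := (1 / 16) ^ 16

/-- the relative width of the shell -/
noncomputable def delt : ℝ := alph ^ 2 / 64

lemma alph_pos : 0 < alph := by unfold alph; positivity

lemma alph_le : alph ≤ 1 := by unfold alph; norm_num

lemma delt_pos : 0 < delt := by unfold delt; have := alph_pos; positivity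

lemma delt_le : delt ≤ 1 / 64 := by
  unfold delt; have := alph_pos; have := alph_le; nlinarith

/-- the region required to be empty outside the cluster -/
def hole (I : Finset (Fin d)) (l : ℕ) : Set (EuclideanSpace ℝ (Fin d)) :=
  capB I (1 - delt) ∪ (capB I (1 + delt) ∩ poor I l (alph / Real.sqrt d))

/-- the region supplying near neighbours to the points close to `z` -/
def supply (I : Finset (Fin d)) (l : ℕ) (z : EuclideanSpace ℝ (Fin d)) :
    Set (EuclideanSpace ℝ (Fin d)) :=
  (ball z (‖z‖ - delt) ∩ cone I) \ hole I l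

lemma cone_meas (I : Finset (Fin d)) : MeasurableSet (cone I) := by
  apply IsClosed.measurableSet
  have : cone I = ⋂ i ∈ I, {w : EuclideanSpace ℝ (Fin d) | 0 ≤ w i} := by
    ext w; simp [cone]
  rw [this]
  exact isClosed_biInter (fun i _ => isClosed_le continuous_const (by fun_prop))

lemma capB_meas (I : Finset (Fin d)) (t : ℝ) : MeasurableSet (capB I t) :=
  measurableSet_ball.inter (cone_meas I)

lemma slab_meas (N : Finset (Fin d)) (a : ℝ) :
    MeasurableSet {w : EuclideanSpace ℝ (Fin d) | ∀ i ∈ N, w i < a} := by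
  apply IsOpen.measurableSet
  have : {w : EuclideanSpace ℝ (Fin d) | ∀ i ∈ N, w i < a}
      = ⋂ i ∈ N, {w : EuclideanSpace ℝ (Fin d) | w i < a} := by
    ext w; simp
  rw [this]
  exact isOpen_biInter_finset (fun i _ => isOpen_lt (by fun_prop) continuous_const)

lemma poor_meas (I : Finset (Fin d)) (l : ℕ) (a : ℝ) : MeasurableSet (poor I l a) :=
  Finset.measurableSet_biUnion _ (fun N _ => slab_meas N a)

lemma hole_meas (I : Finset (Fin d)) (l : ℕ) : MeasurableSet (hole I l) :=
  (capB_meas I _).union ((capB_meas I _).inter (poor_meas I l _))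

lemma supply_meas (I : Finset (Fin d)) (l : ℕ) (z : EuclideanSpace ℝ (Fin d)) :
    MeasurableSet (supply I l z) :=
  (measurableSet_ball.inter (cone_meas I)).diff (hole_meas I l)

lemma capB_mono (I : Finset (Fin d)) {s t : ℝ} (h : s ≤ t) : capB I s ⊆ capB I t :=
  Set.inter_subset_inter_left _ (ball_subset_ball h)

lemma hole_subset (I : Finset (Fin d)) (l : ℕ) : hole I l ⊆ capB I (1 + delt) :=
  Set.union_subset (capB_mono I (by linarith [delt_pos])) Set.inter_subset_left

lemma supply_subset (I : Finset (Fin d)) (l : ℕ) {z : EuclideanSpace ℝ (Fin d)}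
    (hz : ‖z‖ ≤ 1 + delt) : supply I l z ⊆ capB I 3 := by
  rintro w ⟨⟨h1, h2⟩, _⟩
  refine ⟨?_, h2⟩
  rw [mem_ball] at h1 ⊢
  have := dist_triangle w z 0
  rw [dist_zero_right z] at this
  linarith [delt_le, delt_pos]

lemma card_small_lt {I : Finset (Fin d)} {l : ℕ} {a : ℝ} {w : EuclideanSpace ℝ (Fin d)}
    (hw : w ∉ poor I l a) : (I.filter (fun i => w i < a)).card < l := by
  by_contra hcon
  push Not at hcon
  obtain ⟨N, hN, hNc⟩ := exists_subset_card_eq hcon
  apply hw
  simp only [poor, Set.mem_iUnion]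
  exact ⟨N, mem_powersetCard.mpr ⟨hN.trans (filter_subset _ _), hNc⟩,
    fun i hi => (mem_filter.mp (hN hi)).2⟩

lemma capB_fin (I : Finset (Fin d)) (t : ℝ) : volume (capB I t) ≠ ⊤ :=
  ((measure_mono Set.inter_subset_left).trans_lt measure_ball_lt_top).ne

lemma capB_pos (hd : 1 ≤ d) (I : Finset (Fin d)) : 0 < volume.real (capB I 1) := by
  refine ENNReal.toReal_pos (ne_of_gt ?_) (capB_fin I 1)
  have hD : (1 : ℝ) ≤ d := by exact_mod_cast hd
  have hopen : IsOpen (ball (0 : EuclideanSpace ℝ (Fin d)) 1 ∩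
      ⋂ i ∈ I, {w : EuclideanSpace ℝ (Fin d) | 0 < w i}) :=
    isOpen_ball.inter (isOpen_biInter_finset (fun i _ => isOpen_lt continuous_const (by fun_prop)))
  refine lt_of_lt_of_le (hopen.measure_pos volume ?_) (measure_mono ?_)
  · refine ⟨WithLp.toLp 2 (fun _ => 1 / (2 * d)), ?_, ?_⟩
    · rw [mem_ball]
      refine lt_of_le_of_lt (dist_le_of_coord _ _ (1 / (2 * d)) (by positivity) ?_) ?_
      · intro i
        simp only [PiLp.zero_apply, sub_zero]
        rw [abs_of_pos (by positivity)]
      · have : Real.sqrt d ≤ d := by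
          rw [Real.sqrt_le_left (by linarith)]; nlinarith
        rw [mul_one_div, div_lt_one (by positivity)]
        linarith
    · simp only [Set.mem_iInter, Set.mem_ofPred_eq]
      intro i _
      positivity
  · rintro w ⟨h1, h2⟩
    simp only [Set.mem_iInter, Set.mem_ofPred_eq] at h2
    exact ⟨h1, fun i hi => (h2 i hi).le⟩

lemma capB_smul (I : Finset (Fin d)) {t : ℝ} (ht : 0 < t) : capB I t = t • capB I 1 := by
  ext w
  rw [Set.mem_smul_set_iff_inv_smul_mem₀ ht.ne']
  simp only [capB, cone, Set.mem_inter_iff, mem_ball_zero_iff, Set.mem_ofPred_eq, norm_smul,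
    PiLp.smul_apply, smul_eq_mul, norm_inv, Real.norm_of_nonneg ht.le]
  rw [inv_mul_lt_iff₀ ht, mul_one]
  refine and_congr_right (fun _ => forall₂_congr (fun i _ => ?_))
  rw [le_inv_mul_iff₀ ht, mul_zero]

lemma capB_vol (I : Finset (Fin d)) {t : ℝ} (ht : 0 < t) :
    volume.real (capB I t) = t ^ d * volume.real (capB I 1) := by
  rw [capB_smul I ht, measureReal_def, Measure.addHaar_smul_of_nonneg _ ht.le,
    ENNReal.toReal_mul, ENNReal.toReal_ofReal (by positivity), finrank_euclideanSpace,
    Fintype.card_fin, measureReal_def]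

lemma slab_vol (hd : 1 ≤ d) (I N : Finset (Fin d)) (hN : N ⊆ I) (hl : 8 * N.card ≤ d) {t : ℝ}
    (ht : 1 ≤ t) :
    volume.real (capB I t ∩ {w | ∀ i ∈ N, w i < alph / Real.sqrt d})
      ≤ alph ^ N.card * 2 ^ d * volume.real (capB I t) := by
  classical
  have hD : (1 : ℝ) ≤ d := by exact_mod_cast hd
  have ap := alph_pos
  set v : Fin d → ℝ := fun i => if i ∈ N then 1 / alph else 1 / 2 with hv
  set T := Matrix.toLpLin 2 2 (Matrix.diagonal v) with hT
  have Tapp : ∀ (w : EuclideanSpace ℝ (Fin d)) i, T w i = v i * w i := by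
    intro w i
    simp [hT, Matrix.mulVec_diagonal]
  have hdet : (1 / alph) ^ N.card * (1 / 2) ^ d ≤ |LinearMap.det T| := by
    rw [hT, LinearMap.det_toLpLin, Matrix.det_diagonal]
    refine le_trans ?_ (le_abs_self _)
    rw [hv, prod_ite, prod_const, prod_const]
    have e1 : (univ.filter (fun i => i ∈ N)).card = N.card := by simp
    have e2 : (univ.filter (fun i => ¬ i ∈ N)).card ≤ d := by
      simpa using card_filter_le (univ : Finset (Fin d)) (fun i => ¬ i ∈ N)
    rw [e1]
    exact mul_le_mul_of_nonneg_left (pow_le_pow_of_le_one (by norm_num) (by norm_num) e2)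
      (by positivity)
  have himg : T '' (capB I t ∩ {w | ∀ i ∈ N, w i < alph / Real.sqrt d}) ⊆ capB I t := by
    rintro _ ⟨w, ⟨⟨h1, h2⟩, h3⟩, rfl⟩
    constructor
    · rw [mem_ball_zero_iff] at h1 ⊢
      have h4 : ‖T w‖ ^ 2 ≤ N.card * (1 / d) + ‖w‖ ^ 2 / 4 := by
        rw [EuclideanSpace.real_norm_sq_eq, EuclideanSpace.real_norm_sq_eq, sum_div]
        calc ∑ i, T w i ^ 2 ≤ ∑ i, ((if i ∈ N then 1 / (d : ℝ) else 0) + w i ^ 2 / 4) := by
              apply sum_le_sum
              intro i _
              rw [Tapp]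
              simp only [hv]
              split_ifs with hi
              · have g1 := h2 i (hN hi)
                have g2 := h3 i hi
                have g3 : 1 / alph * w i ≤ 1 / Real.sqrt d := by
                  rw [one_div alph, inv_mul_le_iff₀ ap, mul_one_div]; exact g2.le
                have g4 : (1 / alph * w i) ^ 2 ≤ (1 / Real.sqrt d) ^ 2 :=
                  pow_le_pow_left₀ (by positivity) g3 2
                rw [div_pow 1 (Real.sqrt d), Real.sq_sqrt (by linarith), one_pow] at g4
                nlinarith [sq_nonneg (w i)]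
              · nlinarith
          _ = N.card * (1 / d) + ∑ i, w i ^ 2 / 4 := by
              rw [sum_add_distrib, sum_ite, sum_const, sum_const]
              simp
      have h5 : (N.card : ℝ) * (1 / d) ≤ 1 / 8 := by
        have : (8 * N.card : ℝ) ≤ d := by exact_mod_cast hl
        rw [mul_one_div, div_le_iff₀ (by linarith)]
        linarith
      have h6 : ‖w‖ ^ 2 ≤ t ^ 2 := pow_le_pow_left₀ (norm_nonneg _) h1.le 2
      apply lt_of_pow_lt_pow_left₀ 2 (by linarith)
      nlinarith
    · intro i hi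
      rw [Tapp]
      have := h2 i hi
      simp only [hv]
      split_ifs <;> positivity
  have h1 := measureReal_mono himg (capB_fin I t)
  rw [measureReal_def, Measure.addHaar_image_linearMap, ENNReal.toReal_mul,
    ENNReal.toReal_ofReal (abs_nonneg _), ← measureReal_def] at h1
  have h2 := mul_le_mul_of_nonneg_right hdet (measureReal_nonneg (μ := volume)
    (s := capB I t ∩ {w | ∀ i ∈ N, w i < alph / Real.sqrt d}))
  have h3 : alph ^ N.card * 2 ^ d * ((1 / alph) ^ N.card * (1 / 2) ^ d) = 1 := by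
    rw [one_div_pow, one_div_pow]; field_simp
  calc _ = alph ^ N.card * 2 ^ d * ((1 / alph) ^ N.card * (1 / 2) ^ d *
        volume.real (capB I t ∩ {w | ∀ i ∈ N, w i < alph / Real.sqrt d})) := by
        rw [← mul_assoc, h3, one_mul]
    _ ≤ _ := mul_le_mul_of_nonneg_left (h2.trans h1) (by positivity)

lemma poor_vol (hd : 1 ≤ d) (I : Finset (Fin d)) (l : ℕ) (hl : 8 * l ≤ d) (hl2 : d ≤ 16 * l)
    {t : ℝ} (ht : 1 ≤ t) :
    volume.real (capB I t ∩ poor I l (alph / Real.sqrt d))
      ≤ (1 / 4) ^ d * volume.real (capB I t) := by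
  have ap := alph_pos
  unfold poor
  rw [Set.inter_iUnion₂]
  refine (measureReal_biUnion_finset_le _ _).trans ?_
  refine (Finset.sum_le_card_nsmul _ _ (alph ^ l * 2 ^ d * volume.real (capB I t)) ?_).trans ?_
  · intro N hN
    obtain ⟨h1, h2⟩ := mem_powersetCard.mp hN
    have := slab_vol hd I N h1 (by omega) ht
    rwa [h2] at this
  · rw [nsmul_eq_mul, ← mul_assoc]
    apply mul_le_mul_of_nonneg_right _ measureReal_nonneg
    have h1 : ((I.powersetCard l).card : ℝ) ≤ 2 ^ d := by
      have g1 : (I.powersetCard l).card ≤ I.powerset.card :=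
        card_le_card (fun N hN => mem_powerset.mpr (mem_powersetCard.mp hN).1)
      rw [card_powerset] at g1
      have g2 : I.card ≤ d := by simpa using card_le_univ I
      have g3 : 2 ^ I.card ≤ 2 ^ d := Nat.pow_le_pow_right (by norm_num) g2
      exact_mod_cast g1.trans g3
    have h2 : alph ^ l ≤ (1 / 16) ^ d := by
      unfold alph
      rw [← pow_mul]
      exact pow_le_pow_of_le_one (by norm_num) (by norm_num) hl2
    calc ((I.powersetCard l).card : ℝ) * (alph ^ l * 2 ^ d) ≤ 2 ^ d * ((1 / 16) ^ d * 2 ^ d) := by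
          gcongr
      _ = (1 / 4) ^ d := by rw [← mul_pow, ← mul_pow]; norm_num

lemma hole_vol (hd : 1 ≤ d) (I : Finset (Fin d)) (l : ℕ) (hl : 8 * l ≤ d) (hl2 : d ≤ 16 * l)
    (hbig : (1 - delt) ^ d + (1 / 2) ^ d ≤ 1 / 4) :
    volume.real (hole I l) ≤ volume.real (capB I 1) / 4 := by
  have dp := delt_pos
  have dl := delt_le
  refine (measureReal_union_le _ _).trans ?_
  have h1 := poor_vol hd I l hl hl2 (t := 1 + delt) (by linarith)
  rw [capB_vol I (t := 1 + delt) (by linarith), ← mul_assoc, ← mul_pow] at h1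
  rw [capB_vol I (t := 1 - delt) (by linarith)]
  have h2 : (1 / 4 * (1 + delt)) ^ d ≤ (1 / 2) ^ d :=
    pow_le_pow_left₀ (by positivity) (by linarith) d
  have h3 := capB_pos hd I
  nlinarith

lemma shift_bound (hd : 1 ≤ d) (I : Finset (Fin d)) (l : ℕ) (hI : I.card = 4 * l)
    (hl2 : d ≤ 16 * l) {z w : EuclideanSpace ℝ (Fin d)}
    (hz : z ∉ poor I l (alph / Real.sqrt d)) (hw : w ∈ capB I 1)
    (hw2 : w ∉ poor I l (alph / Real.sqrt d)) :
    ‖w - WithLp.toLp 2 (fun i => if i ∈ I ∧ alph / Real.sqrt d ≤ z i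
      then alph / Real.sqrt d / 2 else 0)‖ < 1 - 2 * delt := by
  classical
  have hD : (1 : ℝ) ≤ d := by exact_mod_cast hd
  have ap := alph_pos
  have dl := delt_le
  set a := alph / Real.sqrt d with ha
  have apos : 0 < a := by positivity
  have ha2 : a ^ 2 * d = alph ^ 2 := by
    rw [ha, div_pow, Real.sq_sqrt (by linarith)]; field_simp
  have c1 := card_small_lt hz
  have c2 := card_small_lt hw2
  have key : ‖w - WithLp.toLp 2 (fun i => if i ∈ I ∧ a ≤ z i then a / 2 else 0)‖ ^ 2
      ≤ ‖w‖ ^ 2 - (3 / 4 * a ^ 2 * I.card - a ^ 2 * (I.filter (fun i => z i < a)).card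
        - a ^ 2 * (I.filter (fun i => w i < a)).card) := by
    rw [EuclideanSpace.real_norm_sq_eq, EuclideanSpace.real_norm_sq_eq]
    have e1 : (I.card : ℝ) = ∑ i : Fin d, if i ∈ I then (1 : ℝ) else 0 := by simp
    have e2 : ∀ u : EuclideanSpace ℝ (Fin d), ((I.filter (fun i => u i < a)).card : ℝ)
        = ∑ i : Fin d, if i ∈ I ∧ u i < a then (1 : ℝ) else 0 := by
      intro u
      rw [sum_ite, sum_const, sum_const]
      simp only [nsmul_eq_mul, mul_one, mul_zero, add_zero, Nat.cast_inj]
      congr 1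
      ext i; simp
    rw [e1, e2, e2, mul_sum, mul_sum, mul_sum, ← sum_sub_distrib, ← sum_sub_distrib,
      ← sum_sub_distrib]
    apply sum_le_sum
    intro i _
    simp only [PiLp.sub_apply]
    by_cases hi : i ∈ I
    · have g := hw.2 i hi
      by_cases h1 : a ≤ z i
      · by_cases h2 : w i < a
        · simp only [hi, h1, h2, not_lt.mpr h1, and_self, and_false, if_true, if_false]
          nlinarith
        · simp only [hi, h1, h2, not_lt.mpr h1, and_self, and_false, if_true, if_false]
          nlinarith [not_lt.mp h2]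
      · by_cases h2 : w i < a
        · simp only [hi, h1, h2, not_le.mp h1, and_self, and_false, if_true, if_false]
          nlinarith
        · simp only [hi, h1, h2, not_le.mp h1, and_self, and_false, if_true, if_false]
          nlinarith
    · simp [hi]
  have c1' : ((I.filter (fun i => z i < a)).card : ℝ) ≤ l := by exact_mod_cast c1.le
  have c2' : ((I.filter (fun i => w i < a)).card : ℝ) ≤ l := by exact_mod_cast c2.le
  have hI' : (I.card : ℝ) = 4 * l := by exact_mod_cast hI
  have hl2' : (d : ℝ) ≤ 16 * l := by exact_mod_cast hl2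
  have hw1 : ‖w‖ ^ 2 < 1 := by
    have := mem_ball_zero_iff.mp hw.1
    nlinarith [norm_nonneg w]
  have a2 : 0 < a ^ 2 := by positivity
  have h4 : 4 * delt ≤ a ^ 2 * l := by unfold delt; nlinarith
  apply lt_of_pow_lt_pow_left₀ 2 (by linarith)
  nlinarith [mul_le_mul_of_nonneg_left c1' a2.le, mul_le_mul_of_nonneg_left c2' a2.le,
    sq_nonneg delt]

lemma supply_vol (hd : 1 ≤ d) (I : Finset (Fin d)) (l : ℕ) (hI : I.card = 4 * l)
    (hl : 8 * l ≤ d) (hl2 : d ≤ 16 * l) (hbig : (1 - delt) ^ d + (1 / 2) ^ d ≤ 1 / 4)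
    {z : EuclideanSpace ℝ (Fin d)} (hz : z ∈ cone I) (hz2 : z ∉ hole I l) :
    volume.real (capB I 1) / 4 ≤ volume.real (supply I l z) := by
  classical
  have dp := delt_pos
  have hD : (1 : ℝ) ≤ d := by exact_mod_cast hd
  have ap := alph_pos
  set R := capB I 1 \ poor I l (alph / Real.sqrt d) with hR
  have hshift : ∃ u : EuclideanSpace ℝ (Fin d),
      (fun w => u + w) '' R ⊆ ball z (‖z‖ - delt) ∩ cone I := by
    by_cases h1 : ‖z‖ < 1 + delt
    · have h2 : z ∉ poor I l (alph / Real.sqrt d) := fun h =>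
        hz2 (Or.inr ⟨⟨mem_ball_zero_iff.mpr h1, hz⟩, h⟩)
      have h3 : 1 - delt ≤ ‖z‖ := by
        by_contra h
        exact hz2 (Or.inl ⟨mem_ball_zero_iff.mpr (not_le.mp h), hz⟩)
      refine ⟨z - WithLp.toLp 2 (fun i => if i ∈ I ∧ alph / Real.sqrt d ≤ z i
        then alph / Real.sqrt d / 2 else 0), ?_⟩
      rintro _ ⟨w, ⟨hw1, hw2⟩, rfl⟩
      constructor
      · have := shift_bound hd I l hI hl2 h2 hw1 hw2
        rw [mem_ball, dist_eq_norm]
        have e : ∀ u : EuclideanSpace ℝ (Fin d), z - u + w - z = w - u := fun u => by abel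
        simp only [e]
        linarith
      · intro i hi
        have g1 := hw1.2 i hi
        have g2 := hz i hi
        have g3 : 0 < alph / Real.sqrt d := by positivity
        simp only [PiLp.add_apply, PiLp.sub_apply]
        split_ifs with h
        · linarith [h.2]
        · linarith
    · refine ⟨z, ?_⟩
      rintro _ ⟨w, ⟨hw1, _⟩, rfl⟩
      constructor
      · rw [mem_ball, dist_eq_norm, add_sub_cancel_left]
        have := mem_ball_zero_iff.mp hw1.1
        linarith
      · intro i hi
        have g1 := hw1.2 i hi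
        have g2 := hz i hi
        simp only [PiLp.add_apply]
        linarith
  obtain ⟨u, hu⟩ := hshift
  have fin1 : volume (ball z (‖z‖ - delt) ∩ cone I) ≠ ⊤ :=
    ((measure_mono Set.inter_subset_left).trans_lt measure_ball_lt_top).ne
  have h1 := measureReal_mono hu fin1
  have h2 : volume.real ((fun w => u + w) '' R) = volume.real R := by
    rw [measureReal_def, measureReal_def, Set.image_add_left, measure_preimage_add]
  have h3 : volume.real (capB I 1) ≤ volume.real R
      + volume.real (capB I 1 ∩ poor I l (alph / Real.sqrt d)) := by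
    refine le_trans (measureReal_mono ?_ ?_) (measureReal_union_le _ _)
    · rw [hR, Set.sdiff_union_inter]
    · rw [hR, Set.sdiff_union_inter]; exact capB_fin I 1
  have h4 := poor_vol hd I l hl hl2 (t := 1) le_rfl
  have h5 : (1 / 4 : ℝ) ^ d ≤ 1 / 2 := by
    calc (1 / 4 : ℝ) ^ d ≤ (1 / 4) ^ 1 := pow_le_pow_of_le_one (by norm_num) (by norm_num) hd
      _ ≤ 1 / 2 := by norm_num
  have h6 : volume.real (ball z (‖z‖ - delt) ∩ cone I)
      ≤ volume.real (supply I l z) + volume.real (hole I l) := by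
    refine le_trans (measureReal_mono (Set.subset_sdiff_union _ _) ?_) (measureReal_union_le _ _)
    refine ((measure_union_le _ _).trans_lt (ENNReal.add_lt_top.mpr ⟨?_, ?_⟩)).ne
    · exact (measure_mono Set.sdiff_subset).trans_lt fin1.lt_top
    · exact (measure_mono (hole_subset I l)).trans_lt (capB_fin I _).lt_top
  have h7 := hole_vol hd I l hl hl2 hbig
  have h8 := capB_pos hd I
  nlinarith

/-- a finite net of the points outside the hole -/
lemma exists_net (hd : 1 ≤ d) (I : Finset (Fin d)) (l : ℕ) :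
    ∃ Z : Finset (EuclideanSpace ℝ (Fin d)), Z.Nonempty ∧
      (∀ z ∈ Z, z ∈ cone I ∧ z ∉ hole I l ∧ ‖z‖ ≤ 1 + delt) ∧
      ∀ y ∈ cone I, y ∉ hole I l → ∃ z ∈ Z, ∀ w ∈ supply I l z, dist y w < ‖y‖ - delt / 2 := by
  have dp := delt_pos
  set A : Set (EuclideanSpace ℝ (Fin d)) := {z | z ∈ cone I ∧ z ∉ hole I l ∧ ‖z‖ ≤ 1 + delt}
    with hA
  have hb : TotallyBounded A := by
    apply (isCompact_closedBall (0 : EuclideanSpace ℝ (Fin d)) (1 + delt)).totallyBounded.subset
    intro z hz
    exact mem_closedBall_zero_iff.mpr hz.2.2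
  obtain ⟨t, ht1, ht2, ht3⟩ := finite_approx_of_totallyBounded hb (delt / 4) (by linarith)
  have main : ∀ y ∈ A, ∃ z ∈ ht2.toFinset, ∀ w ∈ supply I l z, dist y w < ‖y‖ - delt / 2 := by
    intro y hy
    have := ht3 hy
    simp only [Set.mem_iUnion] at this
    obtain ⟨z, hz, hyz⟩ := this
    refine ⟨z, ht2.mem_toFinset.mpr hz, fun w hw => ?_⟩
    have h1 := mem_ball.mp hw.1.1
    have h2 := mem_ball.mp hyz
    have h3 := dist_triangle y z w
    have h4 := dist_triangle z y 0
    rw [dist_zero_right, dist_zero_right, dist_comm z y] at h4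
    rw [dist_comm w z] at h1
    linarith
  have hout : ∀ y : EuclideanSpace ℝ (Fin d), ‖y‖ = 1 + delt → y ∉ hole I l := by
    intro y hy h
    have := mem_ball_zero_iff.mp (hole_subset I l h).1
    linarith
  refine ⟨ht2.toFinset, ?_, fun z hz => ht1 (ht2.mem_toFinset.mp hz), ?_⟩
  · have hn : ‖(EuclideanSpace.single (⟨0, hd⟩ : Fin d) (1 + delt))‖ = 1 + delt := by
      rw [PiLp.norm_single, Real.norm_of_nonneg (by linarith)]
    obtain ⟨z, hz, _⟩ := main (EuclideanSpace.single (⟨0, hd⟩ : Fin d) (1 + delt))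
      ⟨fun i _ => by
        rw [PiLp.single_apply]
        split_ifs <;> linarith, hout _ hn, hn.le⟩
    exact ⟨z, hz⟩
  · intro y hy hy2
    by_cases h1 : ‖y‖ ≤ 1 + delt
    · exact main y ⟨hy, hy2, h1⟩
    · push Not at h1
      have yp : 0 < ‖y‖ := by linarith
      set s := (1 + delt) / ‖y‖ with hs
      have sp : 0 < s := by positivity
      have hsy : s * ‖y‖ = 1 + delt := by rw [hs]; field_simp
      have s1 : s ≤ 1 := by rw [hs, div_le_one yp]; exact h1.le
      have hn : ‖s • y‖ = 1 + delt := by rw [norm_smul, Real.norm_of_nonneg sp.le, hsy]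
      obtain ⟨z, hz, hz2⟩ := main (s • y) ⟨fun i hi => by
        have := hy i hi
        simp only [PiLp.smul_apply, smul_eq_mul]
        positivity, hout _ hn, hn.le⟩
      refine ⟨z, hz, fun w hw => ?_⟩
      have h2 := hz2 w hw
      have h3 := dist_triangle y (s • y) w
      have h4 : dist y (s • y) = ‖y‖ - (1 + delt) := by
        rw [dist_eq_norm]
        have : y - s • y = (1 - s) • y := by rw [sub_smul, one_smul]
        rw [this, norm_smul, Real.norm_of_nonneg (by linarith), sub_mul, one_mul, hsy]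
      rw [hn] at h2
      linarith

end Pool.Agent.Lib.MP_16f06b_pr
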