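import Pool.Agent.Lib.MP_16f06b_pr.Defs

/-!
Tail bounds for Poisson variables and for the counts of a Poisson process.
-/

open MeasureTheory ProbabilityTheory Finset
open scoped NNReal ENNReal

namespace Pool.Agent.Lib.MP_16f06b_pr

lemma po_ge (r : ℝ≥0) (k : ℕ) :
    poissonMeasure r {j | k ≤ j} ≤ ENNReal.ofReal ((r : ℝ) ^ k / k.factorial) := by
  have h1 : {j : ℕ | k ≤ j} = ⋃ i : ℕ, {k + i} := by
    ext j
    simp only [Set.mem_ofPred_eq, Set.mem_iUnion, Set.mem_singleton_iff]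
    constructor
    · intro h; exact ⟨j - k, by omega⟩
    · rintro ⟨i, rfl⟩; omega
  rw [h1]
  refine (measure_iUnion_le _).trans ?_
  have h2 : ∀ i : ℕ, poissonMeasure r {k + i} ≤ ENNReal.ofReal ((r : ℝ) ^ k / k.factorial) *
      ENNReal.ofReal (Real.exp (-r) * r ^ i / i.factorial) := by
    intro i
    rw [poissonMeasure_singleton, ← ENNReal.ofReal_mul (by positivity)]
    apply ENNReal.ofReal_le_ofReal
    have h3 : ((k.factorial * i.factorial : ℕ) : ℝ) ≤ (k + i).factorial := by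
      exact_mod_cast Nat.le_of_dvd (Nat.factorial_pos _)
        (Nat.factorial_mul_factorial_dvd_factorial_add k i)
    push_cast at h3
    rw [div_mul_div_comm, pow_add]
    have : (r : ℝ) ^ k * (Real.exp (-r) * r ^ i) = Real.exp (-r) * (r ^ k * r ^ i) := by ring
    rw [this]
    apply div_le_div_of_nonneg_left (by positivity) (by positivity) h3
  refine (ENNReal.tsum_le_tsum h2).trans ?_
  rw [ENNReal.tsum_mul_left, ← ENNReal.ofReal_tsum_of_nonneg (fun i => by positivity)
    (hasSum_one_poissonMeasure r).summable, (hasSum_one_poissonMeasure r).tsum_eq]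
  simp

lemma po_le (r : ℝ≥0) (k : ℕ) :
    poissonMeasure r {j | j ≤ k} ≤ ENNReal.ofReal (2 ^ k * Real.exp (-(r / 2))) := by
  have h1 : {j : ℕ | j ≤ k} = ⋃ i ∈ Finset.range (k + 1), {i} := by
    ext j
    simp
  rw [h1]
  refine (measure_biUnion_finset_le _ _).trans ?_
  simp only [poissonMeasure_singleton]
  rw [← ENNReal.ofReal_sum_of_nonneg (fun i _ => by positivity)]
  apply ENNReal.ofReal_le_ofReal
  have h2 := Real.sum_le_exp_of_nonneg (x := (r : ℝ) / 2) (by positivity) (k + 1)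
  calc ∑ i ∈ range (k + 1), Real.exp (-r) * (r : ℝ) ^ i / i.factorial
      ≤ ∑ i ∈ range (k + 1), 2 ^ k * Real.exp (-r) * (((r : ℝ) / 2) ^ i / i.factorial) := by
        apply sum_le_sum
        intro i hi
        have hi : i ≤ k := Nat.lt_succ_iff.mp (mem_range.mp hi)
        have h3 : (2 : ℝ) ^ i ≤ 2 ^ k := pow_le_pow_right₀ (by norm_num) hi
        have h4 : Real.exp (-r) * (r : ℝ) ^ i / i.factorial
            = 2 ^ i * Real.exp (-r) * (((r : ℝ) / 2) ^ i / i.factorial) := by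
          rw [div_pow]; field_simp
        rw [h4]
        gcongr
    _ = 2 ^ k * Real.exp (-r) * ∑ i ∈ range (k + 1), (((r : ℝ) / 2) ^ i / i.factorial) := by
        rw [mul_sum]
    _ ≤ 2 ^ k * Real.exp (-r) * Real.exp (r / 2) := by gcongr
    _ = 2 ^ k * Real.exp (-(r / 2)) := by
        rw [mul_assoc, ← Real.exp_add]; congr 2; ring

variable {d : ℕ} {Ω : Type} [MeasurableSpace Ω] {P : Measure Ω}
  {S : Set (EuclideanSpace ℝ (Fin d))} {X : Ω → Finset (EuclideanSpace ℝ (Fin d))}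

lemma IsPoissonProcess.prob_eq (h : IsPoissonProcess P S X) {A : Set (EuclideanSpace ℝ (Fin d))}
    (hA : MeasurableSet A) (hAS : A ⊆ S) (T : Set ℕ) :
    P {ω | count (X ω) A ∈ T} = poissonMeasure (volume A).toNNReal T := by
  rw [← h.law A hA hAS, Measure.map_apply (h.measurable A hA hAS) (MeasurableSet.of_discrete)]
  rfl

lemma IsPoissonProcess.prob_ge (h : IsPoissonProcess P S X) {A : Set (EuclideanSpace ℝ (Fin d))}
    (hA : MeasurableSet A) (hAS : A ⊆ S) (v : ℝ) (hv : 0 ≤ v)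
    (hvol : volume A ≤ ENNReal.ofReal v) (k : ℕ) :
    P {ω | k ≤ count (X ω) A} ≤ ENNReal.ofReal (v ^ k / k.factorial) := by
  have := h.prob_eq hA hAS {j | k ≤ j}
  simp only [Set.mem_ofPred_eq] at this
  rw [this]
  refine (po_ge _ k).trans (ENNReal.ofReal_le_ofReal ?_)
  have h1 : ((volume A).toNNReal : ℝ) ≤ v := ENNReal.toReal_le_of_le_ofReal hv hvol
  gcongr

lemma IsPoissonProcess.prob_le (h : IsPoissonProcess P S X) {A : Set (EuclideanSpace ℝ (Fin d))}
    (hA : MeasurableSet A) (hAS : A ⊆ S) (v : ℝ) (hfin : volume A ≠ ⊤)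
    (hvol : ENNReal.ofReal v ≤ volume A) (k : ℕ) :
    P {ω | count (X ω) A ≤ k} ≤ ENNReal.ofReal (2 ^ k * Real.exp (-(v / 2))) := by
  have := h.prob_eq hA hAS {j | j ≤ k}
  simp only [Set.mem_ofPred_eq] at this
  rw [this]
  refine (po_le _ k).trans (ENNReal.ofReal_le_ofReal ?_)
  have h1 : v ≤ ((volume A).toNNReal : ℝ) := (ENNReal.ofReal_le_iff_le_toReal hfin).mp hvol
  gcongr

lemma IsPoissonProcess.prob_single (h : IsPoissonProcess P S X)
    {A : Set (EuclideanSpace ℝ (Fin d))} (hA : MeasurableSet A) (hAS : A ⊆ S) (k : ℕ) :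
    P {ω | count (X ω) A = k}
      = ENNReal.ofReal (Real.exp (-(volume.real A)) * (volume.real A) ^ k / k.factorial) := by
  have := h.prob_eq hA hAS {k}
  simp only [Set.mem_singleton_iff] at this
  rw [this, poissonMeasure_singleton]
  rfl

lemma IsPoissonProcess.prob_zero (h : IsPoissonProcess P S X)
    {A : Set (EuclideanSpace ℝ (Fin d))} (hA : MeasurableSet A) (hAS : A ⊆ S) (v : ℝ)
    (hfin : volume A ≠ ⊤) (hvol : ENNReal.ofReal v ≤ volume A) :
    P {ω | count (X ω) A = 0} ≤ ENNReal.ofReal (Real.exp (-v)) := by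
  rw [h.prob_single hA hAS 0]
  apply ENNReal.ofReal_le_ofReal
  have h1 : v ≤ volume.real A := (ENNReal.ofReal_le_iff_le_toReal hfin).mp hvol
  simp only [pow_zero, mul_one, Nat.factorial_zero, Nat.cast_one, div_one]
  gcongr

lemma IsPoissonProcess.indep_fintype (h : IsPoissonProcess P S X) {ι : Type} [Fintype ι]
    (A : ι → Set (EuclideanSpace ℝ (Fin d))) (hA : ∀ i, MeasurableSet (A i))
    (hAS : ∀ i, A i ⊆ S) (hdisj : Pairwise (fun i j => Disjoint (A i) (A j))) :
    iIndepFun (fun i ω => count (X ω) (A i)) P := by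
  set e := (Fintype.equivFin ι).symm
  have := h.indep _ (fun i => A (e i)) (fun i => hA _) (fun i => hAS _)
    (fun i j hij => hdisj (e.injective.ne hij))
  exact iIndepFun.of_precomp (g := e) e.surjective this

lemma count_mono (Y : Finset (EuclideanSpace ℝ (Fin d))) {A B : Set (EuclideanSpace ℝ (Fin d))}
    (h : ∀ z ∈ Y, z ∈ A → z ∈ B) : count Y A ≤ count Y B := by
  unfold count
  apply Set.ncard_le_ncard _ (Y.finite_toSet.inter_of_left _)
  rintro z ⟨h1, h2⟩
  exact ⟨h1, h z h1 h2⟩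

lemma count_eq_zero_iff (Y : Finset (EuclideanSpace ℝ (Fin d)))
    (A : Set (EuclideanSpace ℝ (Fin d))) : count Y A = 0 ↔ ∀ z ∈ Y, z ∉ A := by
  unfold count
  rw [Set.ncard_eq_zero (Y.finite_toSet.inter_of_left _), Set.eq_empty_iff_forall_notMem]
  constructor
  · intro h z hz hA; exact h z ⟨hz, hA⟩
  · rintro h z ⟨hz, hA⟩; exact h z hz hA

lemma count_le_erase (Y : Finset (EuclideanSpace ℝ (Fin d))) (A : Set (EuclideanSpace ℝ (Fin d)))
    (x : EuclideanSpace ℝ (Fin d)) : count Y A ≤ count Y {z | z ≠ x ∧ z ∈ A} + 1 := by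
  unfold count
  refine le_trans (Set.ncard_le_ncard (t := insert x ((Y : Set _) ∩ {z | z ≠ x ∧ z ∈ A})) ?_
    ((Y.finite_toSet.inter_of_left _).insert x)) (Set.ncard_insert_le _ _)
  rintro z ⟨h1, h2⟩
  by_cases hz : z = x
  · exact Or.inl hz
  · exact Or.inr ⟨h1, hz, h2⟩

end Pool.Agent.Lib.MP_16f06b_pr
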