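import Pool.Agent.Lib.MP_16f06b_pr.Growth
import Pool.Agent.Lib.MP_16f06b_pr.Poisson

/-!
Tiles of the cube, and the deterministic connectivity criterion.
-/

open MeasureTheory Finset

namespace Pool.Agent.Lib.MP_16f06b_pr

variable {d : ℕ}

/-- closed tile -/
def ctile (h : ℝ) (a : Fin d → ℤ) : Set (EuclideanSpace ℝ (Fin d)) :=
  {x | ∀ i, a i * h ≤ x i ∧ x i ≤ (a i + 1) * h}

/-- open tile -/
def otile (h : ℝ) (a : Fin d → ℤ) : Set (EuclideanSpace ℝ (Fin d)) :=
  {x | ∀ i, a i * h < x i ∧ x i < (a i + 1) * h}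

/-- the cube of side `s` -/
def sq (d : ℕ) (s : ℝ) : Set (EuclideanSpace ℝ (Fin d)) := {x | ∀ i, 0 ≤ x i ∧ x i ≤ s}

/-- the corner of a tile -/
noncomputable def corner (h : ℝ) (a : Fin d → ℤ) : EuclideanSpace ℝ (Fin d) :=
  WithLp.toLp 2 (fun i => a i * h)

/-- the index of a tile containing a point -/
noncomputable def tau (h : ℝ) (M : ℕ) (z : EuclideanSpace ℝ (Fin d)) : Fin d → ℤ :=
  fun i => min ⌊z i / h⌋ (M - 1)

lemma tau_mem_grid {h : ℝ} {M : ℕ} (hh : 0 < h) (hM : 1 ≤ M) {z : EuclideanSpace ℝ (Fin d)}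
    (hz : z ∈ sq d (M * h)) : tau h M z ∈ box 0 M := by
  rw [mem_box]
  intro i
  have h1 : 0 ≤ ⌊z i / h⌋ := Int.floor_nonneg.mpr (div_nonneg (hz i).1 hh.le)
  simp only [tau, Pi.zero_apply]
  omega

lemma mem_ctile_tau {h : ℝ} {M : ℕ} (hh : 0 < h) {z : EuclideanSpace ℝ (Fin d)}
    (hz : z ∈ sq d (M * h)) : z ∈ ctile h (tau h M z) := by
  intro i
  have h1 : (⌊z i / h⌋ : ℝ) * h ≤ z i := by
    rw [← le_div_iff₀ hh]; exact Int.floor_le _
  have h2 : z i < (⌊z i / h⌋ + 1) * h := by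
    rw [← div_lt_iff₀ hh]; exact Int.lt_floor_add_one _
  simp only [tau]
  rcases le_total ⌊z i / h⌋ ((M : ℤ) - 1) with h3 | h3
  · rw [min_eq_left h3]; exact ⟨h1, h2.le⟩
  · rw [min_eq_right h3]
    have h4 : (((M : ℤ) - 1 : ℤ) : ℝ) ≤ ⌊z i / h⌋ := by exact_mod_cast h3
    constructor
    · nlinarith
    · push_cast
      have := (hz i).2
      linarith

lemma tau_eq_of_otile {h : ℝ} {M : ℕ} (hh : 0 < h) {z : EuclideanSpace ℝ (Fin d)}
    {a : Fin d → ℤ} (ha : a ∈ box 0 M) (hz : z ∈ otile h a) : tau h M z = a := by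
  funext i
  have h1 : ⌊z i / h⌋ = a i := by
    rw [Int.floor_eq_iff, le_div_iff₀ hh, div_lt_iff₀ hh]
    exact ⟨(hz i).1.le, (hz i).2⟩
  have h2 := (mem_box _ _ _).mp ha i
  simp only [tau, h1, Pi.zero_apply] at h2 ⊢
  omega

lemma dist_le_of_coord (x y : EuclideanSpace ℝ (Fin d)) (r : ℝ) (hr : 0 ≤ r)
    (h : ∀ i, |x i - y i| ≤ r) : dist x y ≤ Real.sqrt d * r := by
  rw [EuclideanSpace.dist_eq, ← Real.sqrt_sq hr, ← Real.sqrt_mul (Nat.cast_nonneg d)]
  apply Real.sqrt_le_sqrt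
  calc ∑ i, dist (x i) (y i) ^ 2 ≤ ∑ _i : Fin d, r ^ 2 := by
        apply sum_le_sum
        intro i _
        rw [Real.dist_eq]
        exact pow_le_pow_left₀ (abs_nonneg _) (h i) 2
    _ = d * r ^ 2 := by simp

lemma coord_le_dist (x y : EuclideanSpace ℝ (Fin d)) (i : Fin d) : |x i - y i| ≤ dist x y := by
  rw [← Real.dist_eq]; exact PiLp.dist_apply_le x y i

lemma exists_corner (c : Fin d → ℤ) (R s M : ℕ) (hs : 2 * R + 1 ≤ s) (hM : s ≤ M) :
    ∃ p : Fin d → ℤ, (∀ i, 0 ≤ p i ∧ p i + s ≤ M) ∧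
      ∀ a ∈ box (0 : Fin d → ℤ) M, (∀ i, |a i - c i| ≤ R) → a ∈ box p s := by
  refine ⟨fun i => max 0 (min (c i - R) (M - s)), fun i => by simp only; omega, ?_⟩
  intro a ha h
  rw [mem_box] at ha ⊢
  intro i
  have h1 := ha i
  have h2 := abs_le.mp (h i)
  simp only [Pi.zero_apply] at h1
  omega

lemma box_subset_grid {p : Fin d → ℤ} {s M : ℕ} (h : ∀ i, 0 ≤ p i ∧ p i + s ≤ M) :
    box p s ⊆ box 0 M := by
  intro a ha
  rw [mem_box] at ha ⊢
  intro i
  have := ha i
  have := h i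
  simp only [Pi.zero_apply]
  omega

lemma box_mono (p : Fin d → ℤ) {s t : ℕ} (h : s ≤ t) : box p s ⊆ box p t := by
  intro a ha
  rw [mem_box] at ha ⊢
  intro i
  have := ha i
  omega

/-- side of the starting window -/
def side0 (d : ℕ) : ℕ := 2 * (1600 * d + 1) + 1

/-- side of the largest window -/
def sideW (d : ℕ) : ℕ := side0 d + 3 * d * side0 d * 44

set_option maxRecDepth 20000 in
/-- the two-colouring criterion -/
theorem no_colouring (hd : 100 ≤ d) (M : ℕ) (h q : ℝ) (hh : 0 < h) (hq1 : 100 ≤ q)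
    (hq2 : q ≤ 200) (hM : 2 * sideW d ≤ M) (Y : Finset (EuclideanSpace ℝ (Fin d))) (k : ℕ)
    (hY : ∀ z ∈ Y, z ∈ sq d (M * h))
    (E1 : ∀ p ∈ box (0 : Fin d → ℤ) M, ∀ U ⊆ box p (sideW d), U ⊆ box 0 M →
      2 * q ^ d ≤ U.card → count Y (⋃ a ∈ U, otile h a) ≠ 0)
    (E2 : ∀ p ∈ box (0 : Fin d → ℤ) M, ∀ U ⊆ box p (sideW d), U ⊆ box 0 M →
      (U.card : ℝ) ≤ (0.95 * q) ^ d → count Y (⋃ a ∈ U, ctile h a) < k)
    (E3 : ∀ p ∈ box (0 : Fin d → ℤ) M,
      count Y (Metric.closedBall (corner h p) (Real.sqrt d * (0.22 * q * h)) ∩ sq d (M * h)) < k)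
    (c : EuclideanSpace ℝ (Fin d) → Prop)
    (hc : ∀ a ∈ Y, ∀ b ∈ Y, c a → ¬ c b → ¬ IsNear Y k a b ∧ ¬ IsNear Y k b a)
    (hX : ∃ a ∈ Y, c a) (hX' : ∃ b ∈ Y, ¬ c b) : False := by
  classical
  have hs0 : 400 ≤ side0 d := by unfold side0; omega
  have hsW : side0 d ≤ sideW d := by unfold sideW; omega
  have hM1 : 1 ≤ M := by omega
  set XA := Y.filter c with hXA
  set XB := Y.filter (fun z => ¬ c z) with hXB
  have hne : (XA ×ˢ XB).Nonempty := by
    obtain ⟨a, ha, hca⟩ := hX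
    obtain ⟨b, hb, hcb⟩ := hX'
    exact ⟨(a, b), mem_product.mpr ⟨mem_filter.mpr ⟨ha, hca⟩, mem_filter.mpr ⟨hb, hcb⟩⟩⟩
  obtain ⟨⟨x, y⟩, hxy, hmin⟩ := exists_min_image (XA ×ˢ XB) (fun w => dist w.1 w.2) hne
  obtain ⟨hx, hy⟩ := mem_product.mp hxy
  obtain ⟨hxY, hcx⟩ := mem_filter.mp hx
  obtain ⟨hyY, hcy⟩ := mem_filter.mp hy
  simp only at hxY hcx hyY hcy
  set D := dist x y with hD
  have hmin' : ∀ a ∈ Y, ∀ b ∈ Y, c a → ¬ c b → D ≤ dist a b := by
    intro a ha b hb hca hcb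
    exact hmin (a, b) (mem_product.mpr ⟨mem_filter.mpr ⟨ha, hca⟩, mem_filter.mpr ⟨hb, hcb⟩⟩)
  have sqd : Real.sqrt d ≤ d := by
    have : (1 : ℝ) ≤ d := by exact_mod_cast (by omega : 1 ≤ d)
    rw [Real.sqrt_le_left (by linarith)]
    nlinarith
  have sqp : 0 ≤ Real.sqrt d := Real.sqrt_nonneg _
  -- the distance between the colour classes is bounded
  have hDle : D ≤ 800 * d * h := by
    by_contra hlt
    push Not at hlt
    set w := midpoint ℝ x y with hw
    have hwsq : w ∈ sq d (M * h) := by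
      intro i
      have h1 := hY x hxY i
      have h2 := hY y hyY i
      have : w i = (x i + y i) / 2 := by
        rw [hw, midpoint_eq_smul_add]; simp; ring
      rw [this]
      constructor <;> linarith [h1.1, h1.2, h2.1, h2.2]
    obtain ⟨p, hp, hp2⟩ := exists_corner (tau h M w) 0 400 M (by norm_num) (by omega)
    have hpw := hp2 _ (tau_mem_grid hh hM1 hwsq) (fun i => by simp)
    have hpg : p ∈ box (0 : Fin d → ℤ) M := by
      rw [mem_box]; intro i; have := hp i; simp only [Pi.zero_apply]; omega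
    apply E1 p hpg (box p 400) (box_mono p (by omega)) (box_subset_grid hp)
    · rw [card_box]
      push_cast
      have h1 : (2 : ℝ) ≤ 2 ^ d := by
        calc (2 : ℝ) = 2 ^ 1 := by norm_num
          _ ≤ 2 ^ d := pow_le_pow_right₀ (by norm_num) (by omega)
      calc 2 * q ^ d ≤ 2 ^ d * 200 ^ d := by gcongr
        _ = 400 ^ d := by rw [← mul_pow]; norm_num
    · rw [count_eq_zero_iff]
      intro z hz hz2
      simp only [Set.mem_iUnion] at hz2
      obtain ⟨a, ha, hza⟩ := hz2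
      have hdist : dist z w ≤ Real.sqrt d * (400 * h) := by
        apply dist_le_of_coord _ _ _ (by positivity)
        intro i
        have h1 := hza i
        have h2 := mem_ctile_tau hh hwsq i
        have h3 := (mem_box _ _ _).mp ha i
        have h4 := (mem_box _ _ _).mp hpw i
        have h5 : (p i : ℝ) ≤ a i := by exact_mod_cast h3.1
        have h6 : (a i : ℝ) + 1 ≤ p i + 400 := by exact_mod_cast h3.2
        have h7 : (p i : ℝ) ≤ tau h M w i := by exact_mod_cast h4.1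
        have h8 : (tau h M w i : ℝ) + 1 ≤ p i + 400 := by exact_mod_cast h4.2
        rw [abs_le]
        constructor <;> nlinarith [h1.1, h1.2, h2.1, h2.2]
      have hlt2 : dist z w < D / 2 := by nlinarith
      have hxw : dist x w = D / 2 := by
        rw [hw, dist_left_midpoint]; simp [hD]; ring
      have hyw : dist w y = D / 2 := by
        rw [hw, dist_midpoint_right]; simp [hD]; ring
      by_cases hcz : c z
      · have := hmin' z hz y hyY hcz hcy
        have := dist_triangle z w y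
        linarith
      · have := hmin' x hxY z hz hcx hcz
        have := dist_triangle x w z
        rw [dist_comm w z] at this
        linarith
  -- the starting window
  obtain ⟨p, hp, hp2⟩ := exists_corner (tau h M x) (1600 * d + 1) (side0 d) M le_rfl (by omega)
  have hpg : p ∈ box (0 : Fin d → ℤ) M := by
    rw [mem_box]; intro i; have := hp i; simp only [Pi.zero_apply]; omega
  have hnear : ∀ z ∈ Y, dist x z < 2 * D → tau h M z ∈ box p (side0 d) := by
    intro z hz hxz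
    apply hp2 _ (tau_mem_grid hh hM1 (hY z hz))
    intro i
    have h1 := mem_ctile_tau hh (hY z hz) i
    have h2 := mem_ctile_tau hh (hY x hxY) i
    have h3 := abs_le.mp (coord_le_dist x z i)
    have h4 : (tau h M z i : ℝ) - tau h M x i ≤ 1600 * d + 1 := by
      by_contra hcon
      push Not at hcon
      nlinarith [h1.1, h1.2, h2.1, h2.2, h3.1, h3.2]
    have h5 : -(1600 * d + 1 : ℝ) ≤ (tau h M z i : ℝ) - tau h M x i := by
      by_contra hcon
      push Not at hcon
      nlinarith [h1.1, h1.2, h2.1, h2.2, h3.1, h3.2]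
    rw [abs_le]
    constructor
    · exact_mod_cast h5
    · exact_mod_cast h4
  have hstart : ∀ (Z : Finset (EuclideanSpace ℝ (Fin d))) (v : EuclideanSpace ℝ (Fin d)),
      Z ⊆ Y → dist x v ≤ D → (∀ z ∈ Y, dist v z < D → z ∈ Z) →
      k ≤ count Y {z | z ≠ v ∧ dist v z < D} →
      (0.95 * q) ^ d ≤ ((Z.image (tau h M) ∩ box p (side0 d)).card : ℝ) := by
    intro Z v hZ hv hvZ hk
    by_contra hcon
    push Not at hcon
    have hsub : Z.image (tau h M) ∩ box p (side0 d) ⊆ box p (side0 d) := inter_subset_right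
    have := E2 p hpg _ (hsub.trans (box_mono p hsW)) (hsub.trans (box_subset_grid hp)) hcon.le
    refine absurd (lt_of_le_of_lt (hk.trans (count_mono Y ?_)) this) (lt_irrefl _)
    intro z hz hz2
    simp only [Set.mem_iUnion]
    refine ⟨tau h M z, mem_inter.mpr ⟨mem_image_of_mem _ (hvZ z hz hz2.2), hnear z hz ?_⟩,
      mem_ctile_tau hh (hY z hz)⟩
    have := dist_triangle x v z
    linarith [hz2.2]
  have hA := hstart XA x (filter_subset _ _) (by simp [hD]) (by
    intro z hz hxz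
    refine mem_filter.mpr ⟨hz, ?_⟩
    by_contra hcz
    have := hmin' x hxY z hz hcx hcz
    linarith) (not_lt.mp (hc x hxY y hyY hcx hcy).1)
  have hB := hstart XB y (filter_subset _ _) le_rfl (by
    intro z hz hyz
    refine mem_filter.mpr ⟨hz, ?_⟩
    intro hcz
    have := hmin' z hz y hyY hcz hcy
    rw [dist_comm] at this
    linarith) (by
      have := not_lt.mp (hc x hxY y hyY hcx hcy).2
      rwa [dist_comm y x] at this)
  -- the step
  set m : ℕ := ⌊0.22 * q⌋₊ - 2 with hm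
  have hfl1 : 22 ≤ ⌊0.22 * q⌋₊ := Nat.le_floor (by push_cast; linarith)
  have hfl2 : ⌊0.22 * q⌋₊ ≤ 44 := by
    have : ⌊0.22 * q⌋₊ ≤ ⌊(44 : ℝ)⌋₊ := Nat.floor_le_floor (by linarith)
    simpa using this
  have hm1 : (m : ℝ) + 2 ≤ 0.22 * q := by
    have h1 : ((m + 2 : ℕ) : ℝ) = ⌊0.22 * q⌋₊ := by congr 1; omega
    have h2 := Nat.floor_le (show 0 ≤ 0.22 * q by positivity)
    push_cast at h1
    linarith
  have hm2 : 0.19 * q ≤ m := by
    have h1 : ((m + 2 : ℕ) : ℝ) = ⌊0.22 * q⌋₊ := by congr 1; omega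
    have h2 := Nat.lt_floor_add_one (0.22 * q)
    push_cast at h1
    linarith
  set J := 3 * d * side0 d with hJ
  have hJm : side0 d + J * m ≤ sideW d := by
    unfold sideW
    have : J * m ≤ J * 44 := Nat.mul_le_mul_left _ (by omega)
    omega
  set l : Fin d → ℤ := fun i => if p i + side0 d + J * m ≤ M then 0 else -m with hl
  have hl1 : ∀ i, l i = 0 ∨ l i = -m := by
    intro i; simp only [hl]; split_ifs <;> simp
  have hJm' : (side0 d : ℤ) + J * m ≤ sideW d := by exact_mod_cast hJm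
  have hM' : 2 * (sideW d : ℤ) ≤ M := by exact_mod_cast hM
  have hQ : ∀ i, 0 ≤ p i + J * l i ∧ p i + J * l i + (side0 d + J * m : ℕ) ≤ M := by
    intro i
    have h1 := hp i
    have h2 : (0 : ℤ) ≤ J * m := by positivity
    simp only [hl]
    push_cast
    split_ifs with h3
    · constructor <;> linarith [h1.1, h1.2]
    · constructor <;> nlinarith [h1.1, h1.2]
  have hQg : (fun i => p i + J * l i) ∈ box (0 : Fin d → ℤ) M := by
    rw [mem_box]; intro i; have := hQ i; simp only [Pi.zero_apply]; omega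
  set Emp := (box (fun i => p i + J * l i) (side0 d + J * m)).filter
    (fun b => b ∉ Y.image (tau h M)) with hEmp
  have hEmpsub : Emp ⊆ box (fun i => p i + J * l i) (side0 d + J * m) := filter_subset _ _
  apply no_split m (side0 d) J p l hl1 (XA.image (tau h M)) (XB.image (tau h M)) Emp ?_ ?_
    (0.95 * q) (1 - 1 / (4 * d)) (2 * q ^ d) ?_ (by positivity) ?_ hA hB
    (fun t ht => grow_ineq d hd q m t (by positivity) hm2 ht)
    (final_ineq d (side0 d) m (by omega) (by omega) (by omega))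
  · intro a ha b hb
    obtain ⟨z, hz, rfl⟩ := mem_image.mp ha
    obtain ⟨w, hw, rfl⟩ := mem_image.mp hb
    obtain ⟨hzY, hcz⟩ := mem_filter.mp hz
    obtain ⟨hwY, hcw⟩ := mem_filter.mp hw
    by_contra hcon
    push Not at hcon
    have hk := not_lt.mp (hc z hzY w hwY hcz hcw).1
    have := E3 _ (tau_mem_grid hh hM1 (hY z hzY))
    refine absurd (lt_of_le_of_lt (hk.trans (count_mono Y ?_)) this) (lt_irrefl _)
    intro v hv hv2
    refine ⟨?_, hY v hv⟩
    have h1 : dist z w ≤ Real.sqrt d * ((m + 1) * h) := by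
      apply dist_le_of_coord _ _ _ (by positivity)
      intro i
      have g1 := mem_ctile_tau hh (hY z hzY) i
      have g2 := mem_ctile_tau hh (hY w hwY) i
      have g3 := abs_le.mp (hcon i)
      have g4 : -(m : ℝ) ≤ tau h M z i - tau h M w i := by exact_mod_cast g3.1
      have g5 : (tau h M z i : ℝ) - tau h M w i ≤ m := by exact_mod_cast g3.2
      rw [abs_le]
      constructor <;> nlinarith [g1.1, g1.2, g2.1, g2.2]
    have h2 : dist z (corner h (tau h M z)) ≤ Real.sqrt d * h := by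
      apply dist_le_of_coord _ _ _ hh.le
      intro i
      have g1 := mem_ctile_tau hh (hY z hzY) i
      simp only [corner]
      rw [abs_le]
      constructor <;> linarith [g1.1, g1.2]
    rw [Metric.mem_closedBall]
    have h3 := dist_triangle v z (corner h (tau h M z))
    rw [dist_comm v z] at h3
    have h4 : Real.sqrt d * ((m + 2) * h) ≤ Real.sqrt d * (0.22 * q * h) := by gcongr
    nlinarith [hv2.2]
  · intro b hb
    by_cases hb2 : b ∈ Y.image (tau h M)
    · obtain ⟨z, hz, rfl⟩ := mem_image.mp hb2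
      by_cases hcz : c z
      · exact Or.inl (mem_image_of_mem _ (mem_filter.mpr ⟨hz, hcz⟩))
      · exact Or.inr (Or.inl (mem_image_of_mem _ (mem_filter.mpr ⟨hz, hcz⟩)))
    · exact Or.inr (Or.inr (mem_filter.mpr ⟨hb, hb2⟩))
  · by_contra hcon
    push Not at hcon
    apply E1 _ hQg Emp (hEmpsub.trans (box_mono _ hJm)) (hEmpsub.trans (box_subset_grid hQ))
      hcon.le
    rw [count_eq_zero_iff]
    intro z hz hz2
    simp only [Set.mem_iUnion] at hz2
    obtain ⟨a, ha, hza⟩ := hz2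
    have := tau_eq_of_otile hh (hEmpsub.trans (box_subset_grid hQ) ha) hza
    exact (mem_filter.mp ha).2 (this ▸ mem_image_of_mem _ hz)
  · have : (1 : ℝ) ≤ d := by exact_mod_cast (by omega : 1 ≤ d)
    have : 1 / (4 * (d : ℝ)) ≤ 1 := by rw [div_le_one (by positivity)]; linarith
    linarith

/-- the deterministic connectivity criterion -/
theorem connected_of_good (hd : 100 ≤ d) (M : ℕ) (h q : ℝ) (hh : 0 < h) (hq1 : 100 ≤ q)
    (hq2 : q ≤ 200) (hM : 2 * sideW d ≤ M) (Y : Finset (EuclideanSpace ℝ (Fin d))) (k k' : ℕ)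
    (hk : k ≤ k') (hY : ∀ z ∈ Y, z ∈ sq d (M * h))
    (E1 : ∀ p ∈ box (0 : Fin d → ℤ) M, ∀ U ⊆ box p (sideW d), U ⊆ box 0 M →
      2 * q ^ d ≤ U.card → count Y (⋃ a ∈ U, otile h a) ≠ 0)
    (E2 : ∀ p ∈ box (0 : Fin d → ℤ) M, ∀ U ⊆ box p (sideW d), U ⊆ box 0 M →
      (U.card : ℝ) ≤ (0.95 * q) ^ d → count Y (⋃ a ∈ U, ctile h a) < k)
    (E3 : ∀ p ∈ box (0 : Fin d → ℤ) M,
      count Y (Metric.closedBall (corner h p) (Real.sqrt d * (0.22 * q * h)) ∩ sq d (M * h)) < k) :
    (knnGraph Y k').Connected := by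
  have hs0 : 400 ≤ side0 d := by unfold side0; omega
  have hsW : side0 d ≤ sideW d := by unfold sideW; omega
  have hne : Y.Nonempty := by
    by_contra hcon
    rw [Finset.not_nonempty_iff_eq_empty] at hcon
    apply E1 0 (by rw [mem_box]; intro i; simp; omega) (box 0 400) (box_mono _ (by omega))
      (box_mono _ (by omega))
    · rw [card_box]
      push_cast
      have h1 : (2 : ℝ) ≤ 2 ^ d := by
        calc (2 : ℝ) = 2 ^ 1 := by norm_num
          _ ≤ 2 ^ d := pow_le_pow_right₀ (by norm_num) (by omega)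
      calc 2 * q ^ d ≤ 2 ^ d * 200 ^ d := by gcongr
        _ = 400 ^ d := by rw [← mul_pow]; norm_num
    · rw [count_eq_zero_iff, hcon]; simp
  rw [SimpleGraph.connected_iff]
  refine ⟨?_, hne.to_subtype⟩
  intro u v
  by_contra huv
  apply no_colouring hd M h q hh hq1 hq2 hM Y k hY E1 E2 E3
    (fun z => ∃ hz : z ∈ Y, (knnGraph Y k').Reachable u ⟨z, hz⟩)
  · rintro a ha b hb ⟨ha', hua⟩ hcb
    have hadj : ¬ (knnGraph Y k').Adj ⟨a, ha⟩ ⟨b, hb⟩ := fun hadj =>
      hcb ⟨hb, hua.trans hadj.reachable⟩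
    have hab : (⟨a, ha⟩ : Y) ≠ ⟨b, hb⟩ := by
      intro heq
      exact hcb ⟨hb, heq ▸ hua⟩
    unfold knnGraph at hadj
    rw [SimpleGraph.fromRel_adj] at hadj
    push Not at hadj
    have := hadj hab
    unfold IsNear at this ⊢
    simp only at this
    constructor <;> omega
  · exact ⟨u, u.2, u.2, SimpleGraph.Reachable.refl _⟩
  · exact ⟨v, v.2, fun ⟨_, h⟩ => huv h⟩

end Pool.Agent.Lib.MP_16f06b_pr
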